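import Pool.Agent.Helper94.LT.E6

/-!
Project LT (MP_b8862a_ag), block E6: the main statement.
-/

set_option linter.unusedSectionVars false
set_option linter.unusedVariables false

open Module PF TF PW AG

namespace LT

variable {E : Type*} [NormedAddCommGroup E] [InnerProductSpace ℝ E] {Φ X : Finset E} {n s m : ℕ} {l y v : E}

section e6

variable {u : Fin 6 → E} {z : E}

/-- the form of `y` -/
theorem TyE6.y_form (F : TyE6 Φ u z) (hy : y ∈ Submodule.span ℝ (Φ : Set E)) (hy0 : y ≠ 0) (hlev : Lev3 Φ y) :
    (∃ i j, i ≠ j ∧ (y = u i + u j ∨ y = -(u i + u j))) ∨ ∃ i, y = u i + z ∨ y = u i - z ∨ y = -u i + z ∨ y = -u i - z := by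
  classical
  have hspan := F.span_le hy
  have hlev' : ∀ a ∈ Φ, (inner ℝ y a : ℝ) = -1 ∨ (inner ℝ y a : ℝ) = 0 ∨ (inner ℝ y a : ℝ) = 1 := by
    intro a ha
    rw [real_inner_comm]
    exact hlev a ha
  obtain ⟨m0, -, hm0⟩ := Finset.exists_min_image Finset.univ (fun i => (inner ℝ y (u i) : ℝ)) ⟨0, Finset.mem_univ _⟩
  set T : Finset (Fin 6) := Finset.univ.filter fun i => (inner ℝ y (u i) : ℝ) = inner ℝ y (u m0) + 1 with hT
  have h1 : ∀ i, (inner ℝ y (u i) : ℝ) = (if i ∈ T then 1 else 0) + inner ℝ y (u m0) := by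
    intro i
    by_cases hi : i ∈ T
    · rw [if_pos hi, (Finset.mem_filter.1 hi).2]; ring
    · rw [if_neg hi, zero_add]
      by_cases him : i = m0
      · rw [him]
      · rcases hlev' _ (F.sub_mem him) with h2 | h2 | h2
        · rw [inner_sub_right] at h2
          have := hm0 i (Finset.mem_univ _)
          linarith
        · rw [inner_sub_right] at h2
          linarith
        · rw [inner_sub_right] at h2
          exact absurd (Finset.mem_filter.2 ⟨Finset.mem_univ _, by linarith⟩) hi
  have hmT : m0 ∉ T := by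
    intro h
    have := (Finset.mem_filter.1 h).2
    linarith
  obtain ⟨g, hg⟩ : ∃ g : ℝ, g = 2 * inner ℝ y z := ⟨_, rfl⟩
  have hg' : (inner ℝ y z : ℝ) = g / 2 := by rw [hg]; ring
  have hyT : y = ∑ i ∈ T, u i + g • z := by
    obtain ⟨b, hb⟩ : ∃ b : ℝ, b = inner ℝ y (u m0) := ⟨_, rfl⟩
    have h1' : ∀ i, (inner ℝ y (u i) : ℝ) = (if i ∈ T then 1 else 0) + b := by
      intro i
      rw [h1 i, hb]
    conv_lhs => rw [F.expand hspan, ← hg]
    simp only [h1', add_smul, ite_smul, one_smul, zero_smul, Finset.sum_add_distrib, ← Finset.smul_sum,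
      sum_u F.hu (by norm_num : 0 < 6), smul_zero, add_zero, Finset.sum_ite_mem, Finset.univ_inter]
  have hk5 : T.card ≤ 5 := by
    have h2 : T ⊆ Finset.univ.erase m0 := fun i hi => Finset.mem_erase.2 ⟨fun h => hmT (h ▸ hi), Finset.mem_univ _⟩
    have h3 := Finset.card_le_card h2
    rwa [Finset.card_erase_of_mem (Finset.mem_univ _), Finset.card_univ, Fintype.card_fin] at h3
  have hS : ∀ S : Finset (Fin 6), S.card = 3 → (inner ℝ y (∑ i ∈ S, u i) : ℝ) = (T ∩ S).card - T.card / 2 := by
    intro S hS3
    have hz0 : (inner ℝ z (∑ i ∈ S, u i) : ℝ) = 0 := by rw [real_inner_comm, F.su_z]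
    rw [hyT, inner_add_left, inner_smul_left, hz0, mul_zero, add_zero, inner_su_su F.hu, hS3]
    push_cast
    ring
  have hSp : ∀ S : Finset (Fin 6), S.card = 3 → (inner ℝ y (∑ i ∈ S, u i + z) : ℝ) =
      (T ∩ S).card - T.card / 2 + g / 2 := by
    intro S hS3
    rw [inner_add_right, hS S hS3, hg']
  have hSm : ∀ S : Finset (Fin 6), S.card = 3 → (inner ℝ y (∑ i ∈ S, u i - z) : ℝ) =
      (T ∩ S).card - T.card / 2 - g / 2 := by
    intro S hS3
    rw [inner_sub_right, hS S hS3, hg']
  have hg3 : g = -1 ∨ g = 0 ∨ g = 1 := by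
    have h2 := hlev' _ F.z_mem
    rw [inner_smul_right, hg'] at h2
    rcases h2 with h2 | h2 | h2
    · left; linarith
    · right; left; linarith
    · right; right; linarith
  have hk3 : T.card ≠ 3 := by
    intro h
    have h2 := hSp T h
    have h3 := hSm T h
    rw [Finset.inter_self, h] at h2 h3
    have h4 := hlev' _ (F.sp_mem h)
    have h5 := hlev' _ (F.sm_mem h)
    rw [h2] at h4
    rw [h3] at h5
    rcases hg3 with hg3 | hg3 | hg3
    · rw [hg3] at h4 h5
      norm_num at h5
    · rw [hg3] at h4 h5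
      norm_num at h4
    · rw [hg3] at h4 h5
      norm_num at h4
  have h3c : ({0, 1, 2} : Finset (Fin 6)).card = 3 := by decide
  have hTc : Tᶜ.card = 6 - T.card := by rw [Finset.card_compl, Fintype.card_fin]
  have hsum : ∑ i ∈ T, u i = -∑ i ∈ Tᶜ, u i := by
    have h3 := sum_u F.hu (by norm_num)
    rw [← Finset.sum_add_sum_compl T] at h3
    exact eq_neg_of_add_eq_zero_left h3
  have h4 := hlev' _ (F.sp_mem h3c)
  rw [hSp _ h3c] at h4
  by_cases hg0 : g = 0
  · left
    have hpar : ∃ k : ℤ, (T.card : ℝ) = 2 * k := by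
      rw [hg0] at h4
      rcases h4 with h3 | h3 | h3
      · exact ⟨(T ∩ {0, 1, 2}).card + 1, by push_cast; linarith⟩
      · exact ⟨(T ∩ {0, 1, 2}).card, by push_cast; linarith⟩
      · exact ⟨(T ∩ {0, 1, 2}).card - 1, by push_cast; linarith⟩
    obtain ⟨k, hk⟩ := hpar
    have hk' : (T.card : ℤ) = 2 * k := by exact_mod_cast hk
    have hk0 : T.card ≠ 0 := by
      intro h
      rw [Finset.card_eq_zero] at h
      rw [h, Finset.sum_empty, hg0, zero_smul, zero_add] at hyT
      exact hy0 hyT
    have hc : T.card = 2 ∨ T.card = 4 := by omega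
    rw [hg0, zero_smul, add_zero] at hyT
    rcases hc with hc | hc
    · obtain ⟨i, j, hij, hTij⟩ := Finset.card_eq_two.1 hc
      refine ⟨i, j, hij, Or.inl ?_⟩
      rw [hyT, hTij, Finset.sum_pair hij]
    · have h2 : Tᶜ.card = 2 := by omega
      obtain ⟨i, j, hij, hTij⟩ := Finset.card_eq_two.1 h2
      refine ⟨i, j, hij, Or.inr ?_⟩
      rw [hyT, hsum, hTij, Finset.sum_pair hij]
  · right
    have hg1 : g = 1 ∨ g = -1 := by tauto
    have hpar : ∃ k : ℤ, (T.card : ℝ) = 2 * k + 1 := by
      rcases hg1 with hg1 | hg1 <;> rw [hg1] at h4 <;> rcases h4 with h3 | h3 | h3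
      · exact ⟨(T ∩ {0, 1, 2}).card + 1, by push_cast; linarith⟩
      · exact ⟨(T ∩ {0, 1, 2}).card, by push_cast; linarith⟩
      · exact ⟨(T ∩ {0, 1, 2}).card - 1, by push_cast; linarith⟩
      · exact ⟨(T ∩ {0, 1, 2}).card, by push_cast; linarith⟩
      · exact ⟨(T ∩ {0, 1, 2}).card - 1, by push_cast; linarith⟩
      · exact ⟨(T ∩ {0, 1, 2}).card - 2, by push_cast; linarith⟩
    obtain ⟨k, hk⟩ := hpar
    have hk' : (T.card : ℤ) = 2 * k + 1 := by exact_mod_cast hk
    have hc : T.card = 1 ∨ T.card = 5 := by omega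
    rcases hc with hc | hc
    · obtain ⟨i, hTi⟩ := Finset.card_eq_one.1 hc
      rw [hTi, Finset.sum_singleton] at hyT
      refine ⟨i, ?_⟩
      rcases hg1 with hg1 | hg1
      · left; rw [hyT, hg1, one_smul]
      · right; left; rw [hyT, hg1, neg_one_smul, sub_eq_add_neg]
    · have h2 : Tᶜ.card = 1 := by omega
      obtain ⟨i, hTi⟩ := Finset.card_eq_one.1 h2
      rw [hsum, hTi, Finset.sum_singleton] at hyT
      refine ⟨i, ?_⟩
      rcases hg1 with hg1 | hg1
      · right; right; left; rw [hyT, hg1, one_smul]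
      · right; right; right; rw [hyT, hg1, neg_one_smul, sub_eq_add_neg]

/-- three indices and the complement -/
theorem split6 (m : Fin 6) : ∃ (S : Finset (Fin 6)) (i j : Fin 6), S.card = 3 ∧ m ∉ S ∧ i ∉ S ∧ j ∉ S ∧ i ≠ j ∧ i ≠ m ∧
    j ≠ m ∧ insert i (insert j (insert m S)) = Finset.univ := by
  revert m
  decide +kernel

theorem TyE6.sum_split (F : TyE6 Φ u z) {m i j : Fin 6} {S : Finset (Fin 6)} (hm : m ∉ S) (hi : i ∉ S) (hj : j ∉ S)
    (hij : i ≠ j) (him : i ≠ m) (hjm : j ≠ m) (hu : insert i (insert j (insert m S)) = Finset.univ) :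
    u i + u j + u m + ∑ k ∈ S, u k = 0 := by
  have h1 := sum_u F.hu (by norm_num)
  rw [← hu, Finset.sum_insert (by simp [hij, him, hi]), Finset.sum_insert (by simp [hjm, hj]), Finset.sum_insert hm] at h1
  rw [← h1]
  abel

/-- from one to all the elements of the orbit -/
theorem TyE6.orbit (F : TyE6 Φ u z) (h : RS Φ) (hX : Sat Φ X) {i0 j0 : Fin 6} (hij0 : i0 ≠ j0)
    (hy : Lev3 X (u i0 + u j0)) : (∀ i j, i ≠ j → Lev3 X (u i + u j)) ∧ ∀ i, Lev3 X (-u i + z) ∧ Lev3 X (-u i - z) := by
  have hall := pairs_of_one F.hu h F.two hX (fun i j hij => F.sub_mem hij) hij0 hy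
  refine ⟨hall, fun m => ?_⟩
  obtain ⟨S, i, j, hS, hm, hi, hj, hij, him, hjm, hun⟩ := split6 m
  have h0 := F.sum_split hm hi hj hij him hjm hun
  have h1 : Lev3 X (-u m + z) := by
    have h2 : inner ℝ (u i + u j) (-(∑ k ∈ S, u k + z)) = (1 : ℝ) := by
      rw [inner_neg_right, inner_add_right, inner_add_left, inner_add_left, F.uz, F.uz, real_inner_comm, inner_su F.hu,
        real_inner_comm, inner_su F.hu, if_neg hi, if_neg hj, hS]
      norm_num
    have h3 := lev3_sub h F.two hX (hall i j hij) (h.neg_mem (F.sp_mem hS)) h2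
    have h4 : u i + u j - -(∑ k ∈ S, u k + z) = -u m + z := by
      have h5 : -u m = u i + u j + ∑ k ∈ S, u k := by
        rw [← sub_eq_zero, ← neg_eq_zero, ← h0]
        abel
      rw [h5]
      abel
    rwa [h4] at h3
  refine ⟨h1, ?_⟩
  have h2 : inner ℝ (-u m + z) ((2 : ℝ) • z) = (1 : ℝ) := by
    rw [inner_smul_right, inner_add_left, inner_neg_left, F.uz, F.zz]
    norm_num
  have h3 := lev3_sub h F.two hX h1 F.z_mem h2
  have h4 : -u m + z - (2 : ℝ) • z = -u m - z := by module
  rwa [h4] at h3

/-- from the other half of the orbit to the pairs -/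
theorem TyE6.to_pair (F : TyE6 Φ u z) (h : RS Φ) (hX : Sat Φ X) {m : Fin 6} (hy : Lev3 X (-u m + z)) :
    ∃ i j, i ≠ j ∧ Lev3 X (u i + u j) := by
  obtain ⟨S, i, j, hS, hm, hi, hj, hij, him, hjm, hun⟩ := split6 m
  have h0 := F.sum_split hm hi hj hij him hjm hun
  refine ⟨i, j, hij, ?_⟩
  have h2 : inner ℝ (-u m + z) (∑ k ∈ S, u k + z) = (1 : ℝ) := by
    rw [inner_add_right, inner_add_left, inner_add_left, inner_neg_left, inner_neg_left, F.uz, F.zz, real_inner_comm,
      inner_su F.hu, real_inner_comm, F.su_z, if_neg hm, hS]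
    norm_num
  have h3 := lev3_sub h F.two hX hy (F.sp_mem hS) h2
  have h4 : -u m + z - (∑ k ∈ S, u k + z) = u i + u j := by
    have h5 : u i + u j = -u m - ∑ k ∈ S, u k := by
      rw [← sub_eq_zero, ← h0]
      abel
    rw [h5]
    abel
  rwa [h4] at h3

theorem TyE6.to_pair' (F : TyE6 Φ u z) (h : RS Φ) (hX : Sat Φ X) {m : Fin 6} (hy : Lev3 X (-u m - z)) :
    ∃ i j, i ≠ j ∧ Lev3 X (u i + u j) := by
  refine F.to_pair h hX (m := m) ?_
  have h2 : inner ℝ (-u m - z) (-((2 : ℝ) • z)) = (1 : ℝ) := by
    rw [inner_neg_right, inner_smul_right, inner_sub_left, inner_neg_left, F.uz, F.zz]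
    norm_num
  have h3 := lev3_sub h F.two hX hy F.nz_mem h2
  have h4 : -u m - z - -((2 : ℝ) • z) = -u m + z := by module
  rwa [h4] at h3

/-- BLOCK E6 -/
theorem typeE6 (h : Dt Φ X n s l y v) (F : TyE6 Φ u z) : s = 16 ∧ n = 78 := by
  classical
  have hrs := h.wd.rs
  have hX := h.wd.sat
  have hl := h.wd.l_mem
  have hlspan := TR.sat_span hX hl
  have hls := F.span_le hlspan
  have hsub : Φ ⊆ X := sub_of_two hrs F.two hX (fun x hx hx0 => F.exists_two hX hx hx0) ⟨l, hl, h.wd.l_ne⟩
  have hy0 : y ≠ 0 := by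
    intro hy
    have := h.ly
    rw [hy, inner_zero_right] at this
    norm_num at this
  have hyf := F.y_form h.inn.y_mem hy0 (fun a ha => h.lev a (hsub ha))
  have hyy : (inner ℝ y y : ℝ) = 4 / 3 := by
    have hp : ∀ i j : Fin 6, i ≠ j → (inner ℝ (u i + u j) (u i + u j) : ℝ) = 4 / 3 := by
      intro i j hij
      rw [inner_add_left, inner_add_right, inner_add_right, F.gram, F.gram, F.gram, F.gram, if_pos rfl, if_pos rfl,
        if_neg hij, if_neg hij.symm]
      norm_num
    have hq : ∀ (i : Fin 6), (inner ℝ (u i + z) (u i + z) : ℝ) = 4 / 3 := by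
      intro i
      rw [inner_add_left, inner_add_right, inner_add_right, F.gram, F.uz, F.zu, F.zz, if_pos rfl]
      norm_num
    have hq' : ∀ (i : Fin 6), (inner ℝ (u i - z) (u i - z) : ℝ) = 4 / 3 := by
      intro i
      rw [inner_sub_left, inner_sub_right, inner_sub_right, F.gram, F.uz, F.zu, F.zz, if_pos rfl]
      norm_num
    rcases hyf with ⟨i, j, hij, hy | hy⟩ | ⟨i, hy | hy | hy | hy⟩
    · rw [hy]; exact hp i j hij
    · rw [hy, inner_neg_neg]; exact hp i j hij
    · rw [hy]; exact hq i
    · rw [hy]; exact hq' i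
    · have h1 : -u i + z = -(u i - z) := by abel
      rw [hy, h1, inner_neg_neg]; exact hq' i
    · have h1 : -u i - z = -(u i + z) := by abel
      rw [hy, h1, inner_neg_neg]; exact hq i
  have hpair : ∃ i j, i ≠ j ∧ Lev3 X (u i + u j) := by
    have hlev := h.lev
    rcases hyf with ⟨i, j, hij, hy | hy⟩ | ⟨i, hy | hy | hy | hy⟩
    · exact ⟨i, j, hij, hy ▸ hlev⟩
    · have h1 := lev3_neg hlev
      rw [hy, neg_neg] at h1
      exact ⟨i, j, hij, h1⟩
    · have h1 := lev3_neg hlev
      have h2 : -y = -u i - z := by rw [hy]; abel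
      rw [h2] at h1
      exact F.to_pair' hrs hX h1
    · have h1 := lev3_neg hlev
      have h2 : -y = -u i + z := by rw [hy]; abel
      rw [h2] at h1
      exact F.to_pair hrs hX h1
    · rw [hy] at hlev
      exact F.to_pair hrs hX hlev
    · rw [hy] at hlev
      exact F.to_pair' hrs hX hlev
  obtain ⟨i0, j0, hij0, hy1⟩ := hpair
  obtain ⟨hall, hallz⟩ := F.orbit hrs hX hij0 hy1
  -- the highest weight is a root
  have hlΦ : l ∈ Φ := by
    obtain ⟨e, f, he, hf, h0', hpar⟩ := F.int_half hX hl
    have hs : ∀ i j, i ≠ j → e i + e j ≤ 2 ∧ -2 ≤ e i + e j := by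
      intro i j hij
      have h1 := lev3_bound (hall i j hij) hl
      rw [inner_add_right, he, he] at h1
      constructor
      · have h2 : (e i : ℝ) + e j ≤ 2 := by linarith [h1.1]
        exact_mod_cast h2
      · have h2 : (-2 : ℝ) ≤ (e i : ℝ) + e j := by linarith [h1.2]
        exact_mod_cast h2
    have hz : ∀ i, e i + f ≤ 2 ∧ -2 ≤ e i + f ∧ e i - f ≤ 2 ∧ -2 ≤ e i - f := by
      intro i
      have h1 := lev3_bound (hallz i).1 hl
      have h2 := lev3_bound (hallz i).2 hl
      rw [inner_add_right, inner_neg_right, he, hf] at h1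
      rw [inner_sub_right, inner_neg_right, he, hf] at h2
      refine ⟨?_, ?_, ?_, ?_⟩
      · have h3 : (e i : ℝ) + f ≤ 2 := by linarith [h2.2]
        exact_mod_cast h3
      · have h3 : (-2 : ℝ) ≤ (e i : ℝ) + f := by linarith [h2.1]
        exact_mod_cast h3
      · have h3 : (e i : ℝ) - f ≤ 2 := by linarith [h1.2]
        exact_mod_cast h3
      · have h3 : (-2 : ℝ) ≤ (e i : ℝ) - f := by linarith [h1.1]
        exact_mod_cast h3
    by_cases hodd : f = 1 ∨ f = -1
    · refine F.of_signs hls (fun i => ?_) ?_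
      · obtain ⟨k, hk⟩ := hpar i
        have h1 := hz i
        rw [he]
        rcases (by omega : e i = 1 ∨ e i = -1) with h2 | h2
        · left; rw [h2]; norm_num
        · right; rw [h2]; norm_num
      · rw [hf]
        rcases hodd with h1 | h1
        · left; rw [h1]; norm_num
        · right; rw [h1]; norm_num
    · have hf3 : f = 0 ∨ f = 2 ∨ f = -2 := by
        have h1 := hz 0
        omega
      rcases hf3 with hf0 | hf2 | hf2
      · have hv : ∀ i, e i = 0 ∨ e i = 2 ∨ e i = -2 := by
          intro i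
          obtain ⟨k, hk⟩ := hpar i
          have h1 := hz i
          omega
        have hnz : ∃ i, e i ≠ 0 := by
          by_contra hcon
          push Not at hcon
          apply h.wd.l_ne
          refine F.eq_of hls (Submodule.zero_mem _) (fun i => ?_) ?_
          · rw [he, hcon, inner_zero_left]
            norm_num
          · rw [hf, hf0, inner_zero_left]
            norm_num
        have hpos : ∃ p, e p = 2 := by
          by_contra hcon
          push Not at hcon
          obtain ⟨i, hi⟩ := hnz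
          have h1 : ∑ j, e j < 0 := by
            refine Finset.sum_neg' (fun j _ => ?_) ⟨i, Finset.mem_univ _, ?_⟩
            · have := hv j; have := hcon j; omega
            · have := hv i; have := hcon i; omega
          omega
        have hneg : ∃ q, e q = -2 := by
          by_contra hcon
          push Not at hcon
          obtain ⟨i, hi⟩ := hnz
          have h1 : 0 < ∑ j, e j := by
            refine Finset.sum_pos' (fun j _ => ?_) ⟨i, Finset.mem_univ _, ?_⟩
            · have := hv j; have := hcon j; omega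
            · have := hv i; have := hcon i; omega
          omega
        obtain ⟨p, hp⟩ := hpos
        obtain ⟨q, hq⟩ := hneg
        have hpq : p ≠ q := by rintro rfl; omega
        have hl' : l = u p - u q := by
          refine F.eq_of hls (Submodule.sub_mem _ (u_mem6 u z p) (u_mem6 u z q)) (fun i => ?_) ?_
          · rw [he, inner_sub_left, F.gram, F.gram]
            by_cases hip : i = p
            · subst hip
              rw [hp, if_pos rfl, if_neg hpq.symm]
              norm_num
            · by_cases hiq : i = q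
              · subst hiq
                rw [hq, if_pos rfl, if_neg hpq]
                norm_num
              · have h1 := hs i p hip
                have h2 := hs i q hiq
                have h3 : e i = 0 := by
                  have := hv i
                  omega
                rw [h3, if_neg (Ne.symm hip), if_neg (Ne.symm hiq)]
                norm_num
          · rw [hf, hf0, inner_sub_left, F.uz, F.uz]
            norm_num
        rw [hl']
        exact F.sub_mem hpq
      · have hl' : l = (2 : ℝ) • z := by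
          refine F.eq_of hls (Submodule.smul_mem _ _ (z_mem6 u z)) (fun i => ?_) ?_
          · have h1 := hz i
            have h2 : e i = 0 := by omega
            rw [he, h2, inner_smul_left, F.zu]
            simp
          · rw [hf, hf2, inner_smul_left, F.zz]
            norm_num
        rw [hl']
        exact F.z_mem
      · have hl' : l = -((2 : ℝ) • z) := by
          refine F.eq_of hls (Submodule.neg_mem _ (Submodule.smul_mem _ _ (z_mem6 u z))) (fun i => ?_) ?_
          · have h1 := hz i
            have h2 : e i = 0 := by omega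
            rw [he, h2, inner_neg_left, inner_smul_left, F.zu]
            simp
          · rw [hf, hf2, inner_neg_left, inner_smul_left, F.zz]
            norm_num
        rw [hl']
        exact F.nz_mem
  have hcas := F.cas_root hrs hlΦ
  have hn := h.adj hlΦ (fun a ha => by rw [F.two a ha, F.two l hlΦ])
  have hcard : Φ.card = 72 := by exact_mod_cast F.card
  rw [F.finrank, hcard] at hn
  have hid := h.inn.idt
  rw [hcas, hyy, F.finrank, hcard, hn] at hid
  push_cast at hid
  have hs : (s : ℝ) = 16 := by linarith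
  exact ⟨by exact_mod_cast hs, hn⟩

end e6

end LT
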