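import Pool.Agent.Helper94.LT.E7

/-!
Project LT (MP_b8862a_ag), block E7: the main statement.
-/

set_option linter.unusedSectionVars false
set_option linter.unusedVariables false

open Module PF TF PW AG

namespace LT

variable {E : Type*} [NormedAddCommGroup E] [InnerProductSpace ℝ E] {Φ X : Finset E} {n s m : ℕ} {l y v : E}

section e7

variable {u : Fin 8 → E}

/-- twice the coordinates of the elements of the root lattice are integers -/
theorem TyE7.closure (F : TyE7 Φ u) {x : E} (hx : x ∈ AddSubgroup.closure (Φ : Set E)) (i : Fin 8) :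
    ∃ k : ℤ, 2 * (inner ℝ x (u i) : ℝ) = k := by
  induction hx using AddSubgroup.closure_induction with
  | mem a ha =>
    rcases (F.mem a).1 ha with ⟨p, q, hpq, rfl⟩ | ⟨S, hS, rfl⟩
    · refine ⟨2 * ((if p = i then 1 else 0) - (if q = i then 1 else 0)), ?_⟩
      rw [inner_sub_left, F.hu, F.hu]
      push_cast
      ring
    · refine ⟨2 * (if i ∈ S then 1 else 0) - 1, ?_⟩
      rw [inner_su F.hu, hS]
      push_cast
      ring
  | zero => exact ⟨0, by rw [inner_zero_left]; simp⟩
  | add x y _ _ h1 h2 =>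
    obtain ⟨a, ha⟩ := h1
    obtain ⟨b, hb⟩ := h2
    refine ⟨a + b, ?_⟩
    rw [inner_add_left, mul_add, ha, hb]
    push_cast
    ring
  | neg x _ h1 =>
    obtain ⟨a, ha⟩ := h1
    refine ⟨-a, ?_⟩
    rw [inner_neg_left, mul_neg, ha]
    push_cast
    ring

/-- the coordinates of the weights -/
theorem TyE7.int_quarter (F : TyE7 Φ u) {x : E} (hx : ∀ a ∈ Φ, ∃ k : ℤ, co a x = k) :
    ∃ (c : ℤ) (d : Fin 8 → ℤ), ∀ i, (inner ℝ x (u i) : ℝ) = c / 4 + d i := by
  have h1 : ∀ i : Fin 8, ∃ d : ℤ, (inner ℝ x (u i) : ℝ) = inner ℝ x (u 0) + d := by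
    intro i
    by_cases h : i = 0
    · exact ⟨0, by rw [h]; simp⟩
    · obtain ⟨k, hk⟩ := hx _ (F.sub_mem h)
      rw [co_two F.two (F.sub_mem h), inner_sub_right] at hk
      exact ⟨k, by linarith⟩
  choose d hd using h1
  obtain ⟨k, hk⟩ := hx _ (F.su_mem (S := {0, 1, 2, 3}) (by decide))
  rw [co_two F.two (F.su_mem (S := {0, 1, 2, 3}) (by decide)), inner_sum] at hk
  have h2 : ∑ i ∈ ({0, 1, 2, 3} : Finset (Fin 8)), (inner ℝ x (u i) : ℝ) =
      inner ℝ x (u 0) + inner ℝ x (u 1) + inner ℝ x (u 2) + inner ℝ x (u 3) := by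
    rw [Finset.sum_insert (by decide), Finset.sum_insert (by decide), Finset.sum_insert (by decide), Finset.sum_singleton]
    ring
  rw [h2, hd 1, hd 2, hd 3] at hk
  refine ⟨k - d 1 - d 2 - d 3, d, fun i => ?_⟩
  rw [hd i]
  push_cast
  linarith

/-- the coordinates of the weights of an orthogonal module -/
theorem TyE7.int_half (F : TyE7 Φ u) (h : Dt Φ X n s l y v) {x : E} (hx : x ∈ X) :
    ∃ e : Fin 8 → ℤ, ∀ i, (inner ℝ x (u i) : ℝ) = e i / 2 := by
  have hl := h.wd.l_mem
  obtain ⟨c, d, hd⟩ := F.int_quarter fun a ha => h.wd.sat.int a ha l hl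
  have hc : ∃ c' : ℤ, c = 2 * c' := by
    obtain ⟨k, hk⟩ := par_sq h.wd.rs F.two h.par (fun a ha => h.wd.sat.int a ha l hl) h.wd.reg
    have hls := TR.sat_span h.wd.sat hl
    rw [F.frame h.wd.rs hls, inner_u F.hu (by norm_num) (F.span_le hls)] at hk
    simp only [hd] at hk
    have h0 := sum_ax F.hu (by norm_num) l
    simp only [hd] at h0
    rw [Finset.sum_add_distrib, Finset.sum_const, Finset.card_univ, Fintype.card_fin, nsmul_eq_mul] at h0
    have h1 : ∑ i, ((c : ℝ) / 4 + d i) * ((c : ℝ) / 4 + d i) = 8 * ((c : ℝ) / 4 * (c / 4)) + (c / 2) * ∑ i, (d i : ℝ) +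
        ∑ i, (d i : ℝ) * d i := by
      rw [Finset.mul_sum]
      have h2 : (8 : ℝ) * ((c : ℝ) / 4 * (c / 4)) = ∑ i : Fin 8, ((c : ℝ) / 4 * (c / 4)) := by
        rw [Finset.sum_const, Finset.card_univ, Fintype.card_fin, nsmul_eq_mul]
        norm_num
      rw [h2, ← Finset.sum_add_distrib, ← Finset.sum_add_distrib]
      refine Finset.sum_congr rfl fun i _ => ?_
      ring
    have h3 : ∑ i, (d i : ℝ) = -2 * c := by
      push_cast at h0
      linarith
    rw [h1, h3] at hk
    have h4 : (9 : ℝ) * c * c = 2 * (9 * ∑ i, (d i : ℝ) * d i - k) := by linarith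
    have h5 : (9 : ℤ) * c * c = 2 * (9 * ∑ i, d i * d i - k) := by exact_mod_cast h4
    have h6 : Even c := by
      by_contra hodd
      rw [Int.not_even_iff_odd] at hodd
      have h7 : Odd (9 * c * c) := (Odd.mul (by decide) hodd).mul hodd
      rw [h5] at h7
      exact (Int.not_odd_iff_even.2 (even_two_mul _)) h7
    obtain ⟨c', hc'⟩ := h6
    exact ⟨c', by rw [hc']; ring⟩
  obtain ⟨c', rfl⟩ := hc
  have h8 : ∀ i, ∃ k : ℤ, 2 * (inner ℝ (x - l) (u i) : ℝ) = k := fun i => F.closure (h.wd.sat.coset x hx l hl) i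
  choose k hk using h8
  refine ⟨fun i => k i + c' + 2 * d i, fun i => ?_⟩
  have h9 := hk i
  rw [inner_sub_left, hd i] at h9
  push_cast at h9 ⊢
  linarith

theorem TyE7.eq_of (F : TyE7 Φ u) {x z : E} (hx : x ∈ Submodule.span ℝ (Set.range u))
    (hz : z ∈ Submodule.span ℝ (Set.range u)) (h : ∀ i, (inner ℝ x (u i) : ℝ) = inner ℝ z (u i)) : x = z := by
  rw [expand_u F.hu (by norm_num) hx, expand_u F.hu (by norm_num) hz]
  exact Finset.sum_congr rfl fun i _ => by rw [h i]

/-- signs with the sum zero -/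
theorem TyE7.of_signs (F : TyE7 Φ u) {x : E} (hx : x ∈ Submodule.span ℝ (Set.range u))
    (h : ∀ i, (inner ℝ x (u i) : ℝ) = 1 / 2 ∨ (inner ℝ x (u i) : ℝ) = -(1 / 2)) : x ∈ Φ := by
  classical
  set T : Finset (Fin 8) := Finset.univ.filter fun i => (inner ℝ x (u i) : ℝ) = 1 / 2 with hT
  have h0 := sum_ax F.hu (by norm_num) x
  have h1 : ∀ i, (inner ℝ x (u i) : ℝ) = (if i ∈ T then 1 else 0) - 1 / 2 := by
    intro i
    by_cases hi : i ∈ T
    · rw [if_pos hi, (Finset.mem_filter.1 hi).2]; norm_num
    · rw [if_neg hi]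
      rcases h i with h2 | h2
      · exact absurd (by rw [hT, Finset.mem_filter]; exact ⟨Finset.mem_univ _, h2⟩) hi
      · rw [h2]; norm_num
  have h4 : T.card = 4 := by
    simp only [h1, Finset.sum_sub_distrib, Finset.sum_ite_mem, Finset.univ_inter, Finset.sum_const, Finset.card_univ,
      Fintype.card_fin, nsmul_eq_mul, mul_one] at h0
    have : (T.card : ℝ) = 4 := by push_cast at h0; linarith
    exact_mod_cast this
  have h5 : x = ∑ i ∈ T, u i := by
    refine F.eq_of hx (F.span_le (Submodule.subset_span (F.su_mem h4))) fun i => ?_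
    rw [h1, inner_su F.hu, h4]
    norm_num
  rw [h5]
  exact F.su_mem h4

/-- every nonzero weight has pairing at least two with some root -/
theorem TyE7.exists_two (F : TyE7 Φ u) (h : Dt Φ X n s l y v) {x : E} (hx : x ∈ X) (hx0 : x ≠ 0) :
    ∃ c ∈ Φ, (2 : ℝ) ≤ inner ℝ x c := by
  by_contra hcon
  push Not at hcon
  have hle : ∀ c ∈ Φ, (inner ℝ x c : ℝ) ≤ 1 := by
    intro c hc
    obtain ⟨k, hk⟩ := h.wd.sat.int c hc x hx
    rw [co_two F.two hc] at hk
    have h1 := hcon c hc
    rw [hk] at h1 ⊢
    have h2 : k < 2 := by exact_mod_cast h1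
    have h3 : k ≤ 1 := by omega
    exact_mod_cast h3
  obtain ⟨e, he⟩ := F.int_half h hx
  have hspan := F.span_le (TR.sat_span h.wd.sat hx)
  have h0 := sum_ax F.hu (by norm_num) x
  simp only [he] at h0
  have h0' : ∑ i, e i = 0 := by
    have h1 : (∑ i, (e i : ℝ)) = 0 := by
      rw [← Finset.sum_div] at h0
      linarith
    exact_mod_cast h1
  have hd : ∀ i j, e i - e j ≤ 2 := by
    intro i j
    by_cases hij : i = j
    · rw [hij]; omega
    · have h1 := hle _ (F.sub_mem hij)
      rw [inner_sub_right, he, he] at h1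
      have h2 : (e i : ℝ) - e j ≤ 2 := by linarith
      exact_mod_cast h2
  have hpar : ∀ i j, ∃ k : ℤ, e i - e j = 2 * k := by
    intro i j
    by_cases hij : i = j
    · exact ⟨0, by rw [hij]; ring⟩
    · obtain ⟨k, hk⟩ := h.wd.sat.int _ (F.sub_mem hij) x hx
      rw [co_two F.two (F.sub_mem hij), inner_sub_right, he, he] at hk
      have h2 : (e i : ℝ) - e j = 2 * k := by linarith
      exact ⟨k, by exact_mod_cast h2⟩
  have hb : ∀ i, e i ≤ 1 ∧ -1 ≤ e i := by
    intro i
    have h1 : ∑ j, (e i - e j) ≤ ∑ j : Fin 8, (2 : ℤ) - 2 := by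
      have h3 : ∑ j : Fin 8, (2 : ℤ) - 2 = ∑ j ∈ Finset.univ.erase i, (2 : ℤ) := by
        rw [Finset.sum_const, Finset.sum_const, Finset.card_erase_of_mem (Finset.mem_univ _), Finset.card_univ,
          Fintype.card_fin]
        decide
      rw [h3, ← Finset.add_sum_erase _ _ (Finset.mem_univ i), sub_self, zero_add]
      exact Finset.sum_le_sum fun j _ => hd i j
    have h2 : ∑ j, (e j - e i) ≤ ∑ j : Fin 8, (2 : ℤ) - 2 := by
      have h3 : ∑ j : Fin 8, (2 : ℤ) - 2 = ∑ j ∈ Finset.univ.erase i, (2 : ℤ) := by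
        rw [Finset.sum_const, Finset.sum_const, Finset.card_erase_of_mem (Finset.mem_univ _), Finset.card_univ,
          Fintype.card_fin]
        decide
      rw [h3, ← Finset.add_sum_erase _ _ (Finset.mem_univ i), sub_self, zero_add]
      exact Finset.sum_le_sum fun j _ => hd j i
    rw [Finset.sum_sub_distrib, h0', Finset.sum_const, Finset.sum_const, Finset.card_univ, Fintype.card_fin] at h1 h2
    simp only [nsmul_eq_mul] at h1 h2
    push_cast at h1 h2
    omega
  by_cases hall : ∀ i, e i = 0
  · apply hx0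
    refine F.eq_of hspan (Submodule.zero_mem _) fun i => ?_
    rw [he, hall, inner_zero_left]
    norm_num
  · push Not at hall
    obtain ⟨i0, hi0⟩ := hall
    have hodd : ∀ i, e i = 1 ∨ e i = -1 := by
      intro i
      obtain ⟨k, hk⟩ := hpar i i0
      have h1 := hb i
      have h2 := hb i0
      omega
    have hmem : x ∈ Φ := by
      refine F.of_signs hspan fun i => ?_
      rw [he]
      rcases hodd i with h1 | h1
      · left; rw [h1]; norm_num
      · right; rw [h1]; norm_num
    have h1 := hcon x hmem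
    rw [F.two x hmem] at h1
    exact lt_irrefl _ h1

/-- the form of `y` -/
theorem TyE7.y_form (F : TyE7 Φ u) (hy : y ∈ Submodule.span ℝ (Φ : Set E)) (hy0 : y ≠ 0) (hlev : Lev3 Φ y) :
    ∃ i j, i ≠ j ∧ (y = u i + u j ∨ y = -(u i + u j)) := by
  classical
  have hspan := F.span_le hy
  have hlev' : ∀ a ∈ Φ, (inner ℝ y a : ℝ) = -1 ∨ (inner ℝ y a : ℝ) = 0 ∨ (inner ℝ y a : ℝ) = 1 := by
    intro a ha
    rw [real_inner_comm]
    exact hlev a ha
  obtain ⟨m0, -, hm0⟩ := Finset.exists_min_image Finset.univ (fun i => (inner ℝ y (u i) : ℝ)) ⟨0, Finset.mem_univ _⟩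
  set T : Finset (Fin 8) := Finset.univ.filter fun i => (inner ℝ y (u i) : ℝ) = inner ℝ y (u m0) + 1 with hT
  have h1 : ∀ i, (inner ℝ y (u i) : ℝ) = (if i ∈ T then 1 else 0) + inner ℝ y (u m0) := by
    intro i
    by_cases hi : i ∈ T
    · rw [if_pos hi, (Finset.mem_filter.1 hi).2]; ring
    · rw [if_neg hi, zero_add]
      by_cases him : i = m0
      · rw [him]
      · rcases hlev' _ (F.sub_mem him) with h2 | h2 | h2
        · rw [inner_sub_right] at h2
          have := hm0 i (Finset.mem_univ _)
          linarith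
        · rw [inner_sub_right] at h2
          linarith
        · rw [inner_sub_right] at h2
          exact absurd (Finset.mem_filter.2 ⟨Finset.mem_univ _, by linarith⟩) hi
  have hmT : m0 ∉ T := by
    intro h
    have := (Finset.mem_filter.1 h).2
    linarith
  have hyT : y = ∑ i ∈ T, u i := by
    obtain ⟨b, hb⟩ : ∃ b : ℝ, b = inner ℝ y (u m0) := ⟨_, rfl⟩
    have h1' : ∀ i, (inner ℝ y (u i) : ℝ) = (if i ∈ T then 1 else 0) + b := by
      intro i
      rw [h1 i, hb]
    conv_lhs => rw [expand_u F.hu (by norm_num) hspan]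
    simp only [h1', add_smul, ite_smul, one_smul, zero_smul, Finset.sum_add_distrib, ← Finset.smul_sum,
      sum_u F.hu (by norm_num : 0 < 8), smul_zero, add_zero, Finset.sum_ite_mem, Finset.univ_inter]
  have hk7 : T.card ≤ 7 := by
    have h2 : T ⊆ Finset.univ.erase m0 := fun i hi => Finset.mem_erase.2 ⟨fun h => hmT (h ▸ hi), Finset.mem_univ _⟩
    have h3 := Finset.card_le_card h2
    rwa [Finset.card_erase_of_mem (Finset.mem_univ _), Finset.card_univ, Fintype.card_fin] at h3
  have hS : ∀ S : Finset (Fin 8), S.card = 4 → (inner ℝ y (∑ i ∈ S, u i) : ℝ) = (T ∩ S).card - T.card / 2 := by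
    intro S hS4
    rw [hyT, inner_su_su F.hu, hS4]
    push_cast
    ring
  have hk0 : T.card ≠ 0 := by
    intro h
    rw [Finset.card_eq_zero] at h
    rw [h, Finset.sum_empty] at hyT
    exact hy0 hyT
  have hk4 : T.card ≠ 4 := by
    intro h
    have h2 := hS T h
    have h3 := hlev' _ (F.su_mem h)
    rw [h2, Finset.inter_self, h] at h3
    norm_num at h3
  have hpar : ∃ k : ℤ, (T.card : ℝ) = 2 * k := by
    have h2 := hS {0, 1, 2, 3} (by decide)
    have h3 := hlev' _ (F.su_mem (S := {0, 1, 2, 3}) (by decide))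
    rw [h2] at h3
    rcases h3 with h3 | h3 | h3
    · exact ⟨(T ∩ {0, 1, 2, 3}).card + 1, by push_cast; linarith⟩
    · exact ⟨(T ∩ {0, 1, 2, 3}).card, by push_cast; linarith⟩
    · exact ⟨(T ∩ {0, 1, 2, 3}).card - 1, by push_cast; linarith⟩
  obtain ⟨k, hk⟩ := hpar
  have hk' : (T.card : ℤ) = 2 * k := by exact_mod_cast hk
  have hc : T.card = 2 ∨ T.card = 6 := by omega
  rcases hc with hc | hc
  · obtain ⟨i, j, hij, hTij⟩ := Finset.card_eq_two.1 hc
    refine ⟨i, j, hij, Or.inl ?_⟩
    rw [hyT, hTij, Finset.sum_pair hij]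
  · have h2 : Tᶜ.card = 2 := by rw [Finset.card_compl, hc, Fintype.card_fin]
    obtain ⟨i, j, hij, hTij⟩ := Finset.card_eq_two.1 h2
    refine ⟨i, j, hij, Or.inr ?_⟩
    have h3 := sum_u F.hu (by norm_num)
    rw [← Finset.sum_add_sum_compl T, hTij, Finset.sum_pair hij] at h3
    rw [hyT]
    exact eq_neg_of_add_eq_zero_left h3

/-- BLOCK E7 -/
theorem typeE7 (h : Dt Φ X n s l y v) (F : TyE7 Φ u) : s = 27 ∧ n = 133 := by
  classical
  have hrs := h.wd.rs
  have hX := h.wd.sat
  have hl := h.wd.l_mem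
  have hlspan := TR.sat_span hX hl
  have hls := F.span_le hlspan
  have hsub : Φ ⊆ X := sub_of_two hrs F.two hX (fun x hx hx0 => F.exists_two h hx hx0) ⟨l, hl, h.wd.l_ne⟩
  have hy0 : y ≠ 0 := by
    intro hy
    have := h.ly
    rw [hy, inner_zero_right] at this
    norm_num at this
  obtain ⟨i0, j0, hij0, hy⟩ := F.y_form h.inn.y_mem hy0 (fun a ha => h.lev a (hsub ha))
  have hpair : Lev3 X (u i0 + u j0) := by
    rcases hy with hy | hy
    · rw [← hy]; exact h.lev
    · have h1 := lev3_neg h.lev
      rwa [hy, neg_neg] at h1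
  have hall := pairs_of_one F.hu hrs F.two hX (fun i j hij => F.sub_mem hij) hij0 hpair
  have hyy : (inner ℝ y y : ℝ) = 3 / 2 := by
    have h1 : (inner ℝ (u i0 + u j0) (u i0 + u j0) : ℝ) = 3 / 2 := by
      rw [inner_add_left, inner_add_right, inner_add_right, F.gram, F.gram, F.gram, F.gram, if_pos rfl, if_pos rfl,
        if_neg hij0, if_neg hij0.symm]
      norm_num
    rcases hy with hy | hy
    · rw [hy]; exact h1
    · rw [hy, inner_neg_neg]; exact h1
  -- the highest weight is a root
  have hlΦ : l ∈ Φ := by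
    obtain ⟨e, he⟩ := F.int_half h hl
    have h0 := sum_ax F.hu (by norm_num) l
    simp only [he] at h0
    have h0' : ∑ i, e i = 0 := by
      have h1 : (∑ i, (e i : ℝ)) = 0 := by
        rw [← Finset.sum_div] at h0
        linarith
      exact_mod_cast h1
    have hpar : ∀ i j, ∃ k : ℤ, e i - e j = 2 * k := by
      intro i j
      by_cases hij : i = j
      · exact ⟨0, by rw [hij]; ring⟩
      · obtain ⟨k, hk⟩ := hX.int _ (F.sub_mem hij) l hl
        rw [co_two F.two (F.sub_mem hij), inner_sub_right, he, he] at hk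
        have h2 : (e i : ℝ) - e j = 2 * k := by linarith
        exact ⟨k, by exact_mod_cast h2⟩
    have hs : ∀ i j, i ≠ j → e i + e j ≤ 2 ∧ -2 ≤ e i + e j := by
      intro i j hij
      have h1 := lev3_bound (hall i j hij) hl
      rw [inner_add_right, he, he] at h1
      constructor
      · have h2 : (e i : ℝ) + e j ≤ 2 := by linarith [h1.1]
        exact_mod_cast h2
      · have h2 : (-2 : ℝ) ≤ (e i : ℝ) + e j := by linarith [h1.2]
        exact_mod_cast h2
    have hb : ∀ i, e i ≤ 2 ∧ -2 ≤ e i := by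
      intro i
      have h3 : (7 : ℤ) * 2 = ∑ j ∈ Finset.univ.erase i, (2 : ℤ) := by
        rw [Finset.sum_const, Finset.card_erase_of_mem (Finset.mem_univ _), Finset.card_univ, Fintype.card_fin]
        decide
      have h3' : (7 : ℤ) * (-2) = ∑ j ∈ Finset.univ.erase i, (-2 : ℤ) := by
        rw [Finset.sum_const, Finset.card_erase_of_mem (Finset.mem_univ _), Finset.card_univ, Fintype.card_fin]
        decide
      have h5 : ∑ j ∈ Finset.univ.erase i, (e i + e j) = 6 * e i := by
        rw [Finset.sum_add_distrib, Finset.sum_const, Finset.card_erase_of_mem (Finset.mem_univ _), Finset.card_univ,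
          Fintype.card_fin]
        have h6 := Finset.add_sum_erase Finset.univ e (Finset.mem_univ i)
        rw [h0'] at h6
        simp only [nsmul_eq_mul]
        push_cast
        linarith
      have h1 : ∑ j ∈ Finset.univ.erase i, (e i + e j) ≤ 7 * 2 := by
        rw [h3]
        exact Finset.sum_le_sum fun j hj => (hs i j (Finset.ne_of_mem_erase hj).symm).1
      have h2 : (7 : ℤ) * (-2) ≤ ∑ j ∈ Finset.univ.erase i, (e i + e j) := by
        rw [h3']
        exact Finset.sum_le_sum fun j hj => (hs i j (Finset.ne_of_mem_erase hj).symm).2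
      rw [h5] at h1 h2
      omega
    by_cases hodd : ∃ i, e i = 1 ∨ e i = -1
    · obtain ⟨i1, hi1⟩ := hodd
      refine F.of_signs hls fun i => ?_
      obtain ⟨k, hk⟩ := hpar i i1
      have h1 := hb i
      rw [he]
      rcases (by omega : e i = 1 ∨ e i = -1) with h2 | h2
      · left; rw [h2]; norm_num
      · right; rw [h2]; norm_num
    · push Not at hodd
      have hv : ∀ i, e i = 0 ∨ e i = 2 ∨ e i = -2 := by
        intro i
        have h1 := hb i
        have h2 := hodd i
        omega
      have hnz : ∃ i, e i ≠ 0 := by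
        by_contra hcon
        push Not at hcon
        apply h.wd.l_ne
        refine F.eq_of hls (Submodule.zero_mem _) fun i => ?_
        rw [he, hcon, inner_zero_left]
        norm_num
      -- a positive and a negative coordinate
      have hpos : ∃ p, e p = 2 := by
        by_contra hcon
        push Not at hcon
        obtain ⟨i, hi⟩ := hnz
        have h1 : ∑ j, e j < 0 := by
          refine Finset.sum_neg' (fun j _ => ?_) ⟨i, Finset.mem_univ _, ?_⟩
          · have := hv j; have := hcon j; omega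
          · have := hv i; have := hcon i; omega
        omega
      have hneg : ∃ q, e q = -2 := by
        by_contra hcon
        push Not at hcon
        obtain ⟨i, hi⟩ := hnz
        have h1 : 0 < ∑ j, e j := by
          refine Finset.sum_pos' (fun j _ => ?_) ⟨i, Finset.mem_univ _, ?_⟩
          · have := hv j; have := hcon j; omega
          · have := hv i; have := hcon i; omega
        omega
      obtain ⟨p, hp⟩ := hpos
      obtain ⟨q, hq⟩ := hneg
      have hpq : p ≠ q := by rintro rfl; omega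
      have hl' : l = u p - u q := by
        refine F.eq_of hls (Submodule.sub_mem _ (Submodule.subset_span ⟨p, rfl⟩) (Submodule.subset_span ⟨q, rfl⟩)) fun i => ?_
        rw [he, inner_sub_left, F.gram, F.gram]
        by_cases hip : i = p
        · subst hip
          rw [hp, if_pos rfl, if_neg hpq.symm]
          norm_num
        · by_cases hiq : i = q
          · subst hiq
            rw [hq, if_pos rfl, if_neg hpq]
            norm_num
          · have h1 := hs i p hip
            have h2 := hs i q hiq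
            have h3 : e i = 0 := by
              have := hv i
              omega
            rw [h3, if_neg (Ne.symm hip), if_neg (Ne.symm hiq)]
            norm_num
      rw [hl']
      exact F.sub_mem hpq
  have hcas := F.cas_root hrs hlΦ
  have hn := h.adj hlΦ (fun a ha => by rw [F.two a ha, F.two l hlΦ])
  have hcard : Φ.card = 126 := by exact_mod_cast F.card
  rw [F.finrank, hcard] at hn
  have hid := h.inn.idt
  rw [hcas, hyy, F.finrank, hcard, hn] at hid
  push_cast at hid
  have hs : (s : ℝ) = 27 := by linarith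
  exact ⟨by exact_mod_cast hs, hn⟩

end e7

end LT
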