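import Pool.Agent.Helper81.LT.Defs
import Pool.Agent.Helper27.TF.A
import Pool.Agent.Helper3.PF.Zero

/-!
Project LT (MP_b8862a_ag): simply laced systems with three levels, general part.
-/

set_option linter.unusedSectionVars false
set_option linter.unusedVariables false

open Module PF TF PW AG

namespace LT

variable {E : Type*} [NormedAddCommGroup E] [InnerProductSpace ℝ E] {Φ X : Finset E} {n s m : ℕ} {l y v : E}

/-- a system all the roots of which have square length two -/
theorem nrs_of_two (h : RS Φ) (h2 : ∀ a ∈ Φ, inner ℝ a a = (2 : ℝ)) : NRS Φ := by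
  obtain ⟨a, ha⟩ := h.nonempty
  exact { toRS := h, two_le := fun b hb => (h2 b hb).ge, ex_two := ⟨a, ha, h2 a ha⟩ }

theorem co_two (h2 : ∀ a ∈ Φ, inner ℝ a a = (2 : ℝ)) {a : E} (ha : a ∈ Φ) (x : E) : co a x = inner ℝ x a := by
  rw [co, h2 a ha]
  ring

/-- If every nonzero weight has pairing at least two with some root, then all the roots are weights. -/
theorem sub_of_two (h : RS Φ) (h2 : ∀ a ∈ Φ, inner ℝ a a = (2 : ℝ)) (hX : Sat Φ X)
    (hE : ∀ x ∈ X, x ≠ 0 → ∃ c ∈ Φ, (2 : ℝ) ≤ inner ℝ x c) (hne : ∃ x ∈ X, x ≠ 0) : Φ ⊆ X := by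
  classical
  have hN := nrs_of_two h h2
  have hPsi : ∀ {a : E}, a ∈ Φ → a ∈ Psi Φ := fun ha => mem_Psi.2 ⟨ha, h2 _ ha⟩
  have hYne : (X.filter fun x => x ≠ 0).Nonempty := by
    obtain ⟨x, hx, hx0⟩ := hne
    exact ⟨x, Finset.mem_filter.2 ⟨hx, hx0⟩⟩
  obtain ⟨x, hx, hmin⟩ := Finset.exists_min_image (X.filter fun x => x ≠ 0) (fun x => (inner ℝ x x : ℝ)) hYne
  rw [Finset.mem_filter] at hx
  obtain ⟨c, hc, hc2⟩ := hE x hx.1 hx.2
  have h3 : x - c ∈ X := by
    have := hX.str c hc x hx.1 1 (by rw [co_two h2 hc]; push_cast; linarith)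
    rwa [Nat.cast_one, one_smul] at this
  have h4 : x = c := by
    by_contra hxc
    have h5 := hmin (x - c) (Finset.mem_filter.2 ⟨h3, sub_ne_zero.2 hxc⟩)
    rw [inner_sub_left x c, inner_sub_right, inner_sub_right, real_inner_comm x c, h2 c hc] at h5
    linarith
  have h5 := hN.orbit (S := {e | e ∈ Psi Φ ∧ e ∈ X}) (fun e he => he.1) ⟨c, hPsi hc, h4 ▸ hx.1⟩
    (fun a ha s hs => ⟨hN.refl_Psi ha hs.1, hX.refl ha (h.neg_mem ha) hs.2⟩)
  intro g hg
  have h6 : g ∈ (Psi Φ : Set E) := hPsi hg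
  rw [← h5] at h6
  exact h6.2

/-- the three levels are preserved by the reflections -/
theorem lev3_refl (h : RS Φ) (h2 : ∀ a ∈ Φ, inner ℝ a a = (2 : ℝ)) (hX : Sat Φ X) (hy : Lev3 X y) {a : E} (ha : a ∈ Φ) :
    Lev3 X (y - (inner ℝ y a : ℝ) • a) := by
  intro x hx
  have h1 := hX.refl ha (h.neg_mem ha) hx
  rw [co_two h2 ha] at h1
  have h3 := hy _ h1
  rw [inner_sub_left, inner_smul_left] at h3
  rw [inner_sub_right, inner_smul_right]
  have h4 : (inner ℝ y a : ℝ) = inner ℝ a y := real_inner_comm _ _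
  rw [h4]
  simp only [conj_trivial] at h3
  have h5 : (inner ℝ x y : ℝ) - inner ℝ a y * inner ℝ x a = inner ℝ x y - inner ℝ x a * inner ℝ a y := by ring
  rw [h5]
  exact h3

theorem lev3_neg (hy : Lev3 X y) : Lev3 X (-y) := by
  intro x hx
  rw [inner_neg_right]
  rcases hy x hx with h | h | h
  · right; right; rw [h]; norm_num
  · right; left; rw [h]; norm_num
  · left; rw [h]

theorem lev3_bound (hy : Lev3 X y) {x : E} (hx : x ∈ X) : (inner ℝ x y : ℝ) ≤ 1 ∧ -1 ≤ (inner ℝ x y : ℝ) := by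
  rcases hy x hx with h | h | h <;> rw [h] <;> norm_num

/-- a reflection with the pairing `1` -/
theorem lev3_sub (h : RS Φ) (h2 : ∀ a ∈ Φ, inner ℝ a a = (2 : ℝ)) (hX : Sat Φ X) (hy : Lev3 X y) {a : E} (ha : a ∈ Φ)
    (h1 : inner ℝ y a = (1 : ℝ)) : Lev3 X (y - a) := by
  have h3 := lev3_refl h h2 hX hy ha
  rwa [h1, one_smul] at h3

/-- the sum of the absolute values of the pairings is the same for all the roots -/
theorem sum_abs_eq (h : RS Φ) (h2 : ∀ a ∈ Φ, inner ℝ a a = (2 : ℝ)) {a b : E} (ha : a ∈ Φ) (hb : b ∈ Φ) :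
    ∑ g ∈ Φ, |(inner ℝ a g : ℝ)| = ∑ g ∈ Φ, |(inner ℝ b g : ℝ)| := by
  classical
  have hN := nrs_of_two h h2
  have hPsi : ∀ {a : E}, a ∈ Φ → a ∈ Psi Φ := fun ha => mem_Psi.2 ⟨ha, h2 _ ha⟩
  have h5 := hN.orbit (S := {e | e ∈ Psi Φ ∧ ∑ g ∈ Φ, |(inner ℝ e g : ℝ)| = ∑ g ∈ Φ, |(inner ℝ b g : ℝ)|})
    (fun e he => he.1) ⟨b, hPsi hb, rfl⟩ (by
      intro c hc s hs
      refine ⟨hN.refl_Psi hc hs.1, ?_⟩
      rw [← hs.2]
      refine Finset.sum_bij' (fun g _ => g - co c g • c) (fun g _ => g - co c g • c) ?_ ?_ ?_ ?_ ?_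
      · intro g hg
        exact h.refl c hc g hg
      · intro g hg
        exact h.refl c hc g hg
      · intro g hg
        rw [co_two h2 hc, co_two h2 hc, inner_sub_left, inner_smul_left, h2 c hc]
        simp only [conj_trivial]
        rw [show (inner ℝ g c : ℝ) - inner ℝ g c * 2 = -inner ℝ g c by ring, neg_smul]
        abel
      · intro g hg
        rw [co_two h2 hc, co_two h2 hc, inner_sub_left, inner_smul_left, h2 c hc]
        simp only [conj_trivial]
        rw [show (inner ℝ g c : ℝ) - inner ℝ g c * 2 = -inner ℝ g c by ring, neg_smul]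
        abel
      · intro g hg
        rw [co_two h2 hc, co_two h2 hc, inner_sub_left, inner_smul_left, inner_sub_right, inner_smul_right]
        simp only [conj_trivial]
        rw [real_inner_comm c g]
        congr 1
        ring)
  have h6 : a ∈ (Psi Φ : Set E) := hPsi ha
  rw [← h5] at h6
  exact h6.2

section frame

variable {u : Fin m → E} (hu : ∀ i j, inner ℝ (u i) (u j) = (if i = j then (1 : ℝ) else 0) - 1 / m)
include hu

/-- the inner products with the partial sums -/
theorem inner_su (S : Finset (Fin m)) (k : Fin m) :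
    (inner ℝ (∑ i ∈ S, u i) (u k) : ℝ) = (if k ∈ S then 1 else 0) - S.card / m := by
  rw [sum_inner]
  simp only [hu, Finset.sum_sub_distrib, Finset.sum_ite_eq', Finset.sum_const, nsmul_eq_mul]
  congr 1
  ring

theorem inner_su_su (S T : Finset (Fin m)) :
    (inner ℝ (∑ i ∈ S, u i) (∑ i ∈ T, u i) : ℝ) = (S ∩ T).card - S.card * T.card / m := by
  rw [inner_sum]
  simp only [inner_su hu, Finset.sum_sub_distrib, Finset.sum_const, nsmul_eq_mul, Finset.sum_ite_mem]
  rw [Finset.inter_comm T S]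
  ring_nf

/-- the subsystem of type `A` -/
theorem frA_sub [DecidableEq E] : FrA ((Finset.univ : Finset (Fin m)).offDiag.image fun p => u p.1 - u p.2) m u where
  gram := hu
  mem a := by
    simp only [Finset.mem_image, Finset.mem_offDiag, Finset.mem_univ, true_and]
    constructor
    · rintro ⟨p, hp, rfl⟩
      exact ⟨p.1, p.2, hp, rfl⟩
    · rintro ⟨i, j, hij, rfl⟩
      exact ⟨(i, j), hij, rfl⟩

theorem sum_u (hm : 0 < m) : ∑ i, u i = 0 := by
  classical
  exact (frA_sub hu).sum_u hm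

theorem sum_ax (hm : 0 < m) (x : E) : ∑ i, (inner ℝ x (u i) : ℝ) = 0 := by
  rw [← inner_sum, sum_u hu hm, inner_zero_right]

theorem norm_sub {i j : Fin m} (hij : i ≠ j) : (inner ℝ (u i - u j) (u i - u j) : ℝ) = 2 := by
  classical
  exact (frA_sub hu).norm hij

/-- the differences are different -/
theorem inj_sub : Set.InjOn (fun p : Fin m × Fin m => u p.1 - u p.2)
    ((Finset.univ : Finset (Fin m)).offDiag : Set (Fin m × Fin m)) := by
  classical
  have F := frA_sub hu
  intro p hp q hq h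
  have hp' := (Finset.mem_offDiag.1 hp).2.2
  have h1 : (inner ℝ (u p.1 - u p.2) (u p.1) : ℝ) = inner ℝ (u q.1 - u q.2) (u p.1) := by
    have : u p.1 - u p.2 = u q.1 - u q.2 := h
    rw [this]
  have h2 : (inner ℝ (u p.1 - u p.2) (u p.2) : ℝ) = inner ℝ (u q.1 - u q.2) (u p.2) := by
    have : u p.1 - u p.2 = u q.1 - u q.2 := h
    rw [this]
  rw [F.inner_sub, F.inner_sub, if_pos rfl, if_neg hp'.symm] at h1
  rw [F.inner_sub, F.inner_sub, if_neg hp', if_pos rfl] at h2
  have h3 : q.1 = p.1 := by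
    by_contra hc
    rw [if_neg hc] at h1
    split_ifs at h1 <;> norm_num at h1
  have h4 : q.2 = p.2 := by
    by_contra hc
    rw [if_neg hc] at h2
    split_ifs at h2 <;> norm_num at h2
  exact Prod.ext h3.symm h4.symm

/-- the partial sums with a fixed number of terms are different -/
theorem inj_su (k : ℕ) (z : E) (hz : ∀ i, inner ℝ z (u i) = (0 : ℝ)) :
    Set.InjOn (fun S : Finset (Fin m) => ∑ i ∈ S, u i + z) (((Finset.univ : Finset (Fin m)).powersetCard k : Finset (Finset (Fin m))) : Set (Finset (Fin m))) := by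
  intro S hS T hT h
  have hS' : S.card = k := (Finset.mem_powersetCard.1 hS).2
  have hT' : T.card = k := (Finset.mem_powersetCard.1 hT).2
  ext i
  have h1 : (inner ℝ (∑ i ∈ S, u i + z) (u i) : ℝ) = inner ℝ (∑ i ∈ T, u i + z) (u i) := by
    have : ∑ i ∈ S, u i + z = ∑ i ∈ T, u i + z := h
    rw [this]
  rw [inner_add_left, inner_add_left, hz, inner_su hu, inner_su hu, hS', hT'] at h1
  constructor
  · intro hi
    by_contra hi'
    rw [if_pos hi, if_neg hi'] at h1
    linarith
  · intro hi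
    by_contra hi'
    rw [if_pos hi, if_neg hi'] at h1
    linarith

/-- all pairs from one pair -/
theorem pairs_of_one (h : RS Φ) (h2 : ∀ a ∈ Φ, inner ℝ a a = (2 : ℝ)) (hX : Sat Φ X)
    (hA : ∀ i j, i ≠ j → u i - u j ∈ Φ) {i j : Fin m} (hij : i ≠ j) (hy : Lev3 X (u i + u j)) :
    ∀ k q, k ≠ q → Lev3 X (u k + u q) := by
  have step : ∀ i j k, i ≠ j → k ≠ j → Lev3 X (u i + u j) → Lev3 X (u k + u j) := by
    intro i j k hij hkj hy
    by_cases hik : i = k
    · rw [← hik]; exact hy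
    · have h1 : inner ℝ (u i + u j) (u i - u k) = (1 : ℝ) := by
        rw [inner_add_left, inner_sub_right, inner_sub_right, hu, hu, hu, hu, if_pos rfl, if_neg hik, if_neg hij.symm,
          if_neg hkj.symm]
        ring
      have h3 := lev3_sub h h2 hX hy (hA i k hik) h1
      have h4 : u i + u j - (u i - u k) = u k + u j := by abel
      rwa [h4] at h3
  have sym : ∀ i j, Lev3 X (u i + u j) → Lev3 X (u j + u i) := by
    intro i j hy
    rwa [add_comm]
  intro k q hkq
  by_cases hkj : k = j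
  · subst hkj
    exact sym _ _ (step i k q hij hkq.symm hy)
  · have h3 := step i j k hij hkj hy
    exact sym _ _ (step j k q (Ne.symm hkj) hkq.symm (sym _ _ h3))

end frame

end LT
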