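import Pool.Agent.Helper94.LT.E7

/-!
Project LT (MP_b8862a_ag), block E6: the root system.
-/

set_option linter.unusedSectionVars false
set_option linter.unusedVariables false

open Module PF TF PW AG

namespace LT

variable {E : Type*} [NormedAddCommGroup E] [InnerProductSpace ℝ E] {Φ X : Finset E} {n s m : ℕ} {l y v : E}

section e6

variable {u : Fin 6 → E} {z : E}

theorem TyE6.hu (F : TyE6 Φ u z) : ∀ i j, inner ℝ (u i) (u j) = (if i = j then (1 : ℝ) else 0) - 1 / ((6 : ℕ) : ℝ) := by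
  intro i j
  rw [F.gram]
  norm_num

theorem TyE6.zu (F : TyE6 Φ u z) (i : Fin 6) : inner ℝ z (u i) = (0 : ℝ) := by rw [real_inner_comm, F.uz]

theorem TyE6.sub_mem (F : TyE6 Φ u z) {i j : Fin 6} (hij : i ≠ j) : u i - u j ∈ Φ := (F.mem _).2 (Or.inl ⟨i, j, hij, rfl⟩)

theorem TyE6.z_mem (F : TyE6 Φ u z) : (2 : ℝ) • z ∈ Φ := (F.mem _).2 (Or.inr (Or.inl rfl))

theorem TyE6.nz_mem (F : TyE6 Φ u z) : -((2 : ℝ) • z) ∈ Φ := (F.mem _).2 (Or.inr (Or.inr (Or.inl rfl)))

theorem TyE6.sp_mem (F : TyE6 Φ u z) {S : Finset (Fin 6)} (hS : S.card = 3) : ∑ i ∈ S, u i + z ∈ Φ :=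
  (F.mem _).2 (Or.inr (Or.inr (Or.inr ⟨S, hS, Or.inl rfl⟩)))

theorem TyE6.sm_mem (F : TyE6 Φ u z) {S : Finset (Fin 6)} (hS : S.card = 3) : ∑ i ∈ S, u i - z ∈ Φ :=
  (F.mem _).2 (Or.inr (Or.inr (Or.inr ⟨S, hS, Or.inr rfl⟩)))

theorem TyE6.su_z (F : TyE6 Φ u z) (S : Finset (Fin 6)) : inner ℝ (∑ i ∈ S, u i) z = (0 : ℝ) := by
  rw [sum_inner]
  exact Finset.sum_eq_zero fun i _ => F.uz i

theorem TyE6.two (F : TyE6 Φ u z) : ∀ a ∈ Φ, inner ℝ a a = (2 : ℝ) := by
  intro a ha
  rcases (F.mem a).1 ha with ⟨i, j, hij, rfl⟩ | rfl | rfl | ⟨S, hS, rfl | rfl⟩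
  · exact norm_sub F.hu hij
  · rw [inner_smul_left, inner_smul_right, F.zz]
    simp
  · rw [inner_neg_neg, inner_smul_left, inner_smul_right, F.zz]
    simp
  · rw [inner_add_left, inner_add_right, inner_add_right, inner_su_su F.hu, Finset.inter_self, hS, F.su_z,
      real_inner_comm, F.su_z, F.zz]
    norm_num
  · rw [inner_sub_left, inner_sub_right, inner_sub_right, inner_su_su F.hu, Finset.inter_self, hS, F.su_z,
      real_inner_comm, F.su_z, F.zz]
    norm_num

/-- the span of the frame -/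
def Sp6 (u : Fin 6 → E) (z : E) : Submodule ℝ E := Submodule.span ℝ (insert z (Set.range u))

theorem u_mem6 (u : Fin 6 → E) (z : E) (i : Fin 6) : u i ∈ Sp6 u z :=
  Submodule.subset_span (Set.mem_insert_of_mem _ ⟨i, rfl⟩)

theorem z_mem6 (u : Fin 6 → E) (z : E) : z ∈ Sp6 u z := Submodule.subset_span (Set.mem_insert _ _)

theorem TyE6.span_le (F : TyE6 Φ u z) : Submodule.span ℝ (Φ : Set E) ≤ Sp6 u z := by
  rw [Submodule.span_le]
  intro a ha
  rcases (F.mem a).1 ha with ⟨i, j, hij, rfl⟩ | rfl | rfl | ⟨S, hS, rfl | rfl⟩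
  · exact Submodule.sub_mem _ (u_mem6 u z i) (u_mem6 u z j)
  · exact Submodule.smul_mem _ _ (z_mem6 u z)
  · exact Submodule.neg_mem _ (Submodule.smul_mem _ _ (z_mem6 u z))
  · exact Submodule.add_mem _ (Submodule.sum_mem _ fun i _ => u_mem6 u z i) (z_mem6 u z)
  · exact Submodule.sub_mem _ (Submodule.sum_mem _ fun i _ => u_mem6 u z i) (z_mem6 u z)

/-- expansion in the frame -/
theorem TyE6.expand (F : TyE6 Φ u z) {x : E} (hx : x ∈ Sp6 u z) :
    x = ∑ i, (inner ℝ x (u i) : ℝ) • u i + (2 * (inner ℝ x z : ℝ)) • z := by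
  unfold Sp6 at hx
  induction hx using Submodule.span_induction with
  | mem x hx =>
    rcases Set.mem_insert_iff.1 hx with rfl | ⟨k, rfl⟩
    · simp only [F.zu, zero_smul, Finset.sum_const_zero, zero_add]
      rw [F.zz]
      norm_num
    · rw [F.uz, mul_zero, zero_smul, add_zero]
      exact expand_u F.hu (by norm_num) (Submodule.subset_span ⟨k, rfl⟩)
  | zero => simp
  | add x y _ _ hx hy =>
    conv_lhs => rw [hx, hy]
    simp only [inner_add_left, add_smul, mul_add, Finset.sum_add_distrib]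
    abel
  | smul r x _ hx =>
    conv_lhs => rw [hx]
    simp only [inner_smul_left, conj_trivial, smul_add, Finset.smul_sum, smul_smul]
    congr 2
    ring

theorem TyE6.eq_of (F : TyE6 Φ u z) {x w : E} (hx : x ∈ Sp6 u z) (hw : w ∈ Sp6 u z)
    (h : ∀ i, (inner ℝ x (u i) : ℝ) = inner ℝ w (u i)) (hz : (inner ℝ x z : ℝ) = inner ℝ w z) : x = w := by
  rw [F.expand hx, F.expand hw, hz]
  congr 1
  exact Finset.sum_congr rfl fun i _ => by rw [h i]

/-- the sum over all the roots -/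
theorem TyE6.sum (F : TyE6 Φ u z) (f : E → ℝ) : ∑ a ∈ Φ, f a =
    ∑ p ∈ (Finset.univ : Finset (Fin 6)).offDiag, f (u p.1 - u p.2) + (f ((2 : ℝ) • z) + f (-((2 : ℝ) • z))) +
      ∑ S ∈ (Finset.univ : Finset (Fin 6)).powersetCard 3, f (∑ i ∈ S, u i + z) +
      ∑ S ∈ (Finset.univ : Finset (Fin 6)).powersetCard 3, f (∑ i ∈ S, u i - z) := by
  classical
  set A : Finset E := (Finset.univ : Finset (Fin 6)).offDiag.image fun p => u p.1 - u p.2 with hA
  set B : Finset E := {(2 : ℝ) • z, -((2 : ℝ) • z)} with hB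
  set C : Finset E := ((Finset.univ : Finset (Fin 6)).powersetCard 3).image fun S => ∑ i ∈ S, u i + z with hC
  set D : Finset E := ((Finset.univ : Finset (Fin 6)).powersetCard 3).image fun S => ∑ i ∈ S, u i + -z with hD
  have h1 : Φ = ((A ∪ B) ∪ C) ∪ D := by
    ext a
    rw [F.mem, Finset.mem_union, Finset.mem_union, Finset.mem_union, hA, hB, hC, hD, Finset.mem_image, Finset.mem_image,
      Finset.mem_image, Finset.mem_insert, Finset.mem_singleton]
    simp only [Finset.mem_offDiag, Finset.mem_univ, true_and, Finset.mem_powersetCard, Finset.subset_univ,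
      ← sub_eq_add_neg]
    constructor
    · rintro (⟨i, j, hij, rfl⟩ | rfl | rfl | ⟨S, hS, rfl | rfl⟩)
      · exact Or.inl (Or.inl (Or.inl ⟨(i, j), hij, rfl⟩))
      · exact Or.inl (Or.inl (Or.inr (Or.inl rfl)))
      · exact Or.inl (Or.inl (Or.inr (Or.inr rfl)))
      · exact Or.inl (Or.inr ⟨S, hS, rfl⟩)
      · exact Or.inr ⟨S, hS, rfl⟩
    · rintro (((⟨p, hp, rfl⟩ | rfl | rfl) | ⟨S, hS, rfl⟩) | ⟨S, hS, rfl⟩)
      · exact Or.inl ⟨p.1, p.2, hp, rfl⟩
      · exact Or.inr (Or.inl rfl)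
      · exact Or.inr (Or.inr (Or.inl rfl))
      · exact Or.inr (Or.inr (Or.inr ⟨S, hS, Or.inl rfl⟩))
      · exact Or.inr (Or.inr (Or.inr ⟨S, hS, Or.inr rfl⟩))
  have zA : ∀ a ∈ A, inner ℝ a z = (0 : ℝ) := by
    intro a ha
    obtain ⟨p, hp, rfl⟩ := Finset.mem_image.1 ha
    rw [inner_sub_left, F.uz, F.uz, sub_zero]
  have zB : ∀ a ∈ B, inner ℝ a z = (1 : ℝ) ∨ inner ℝ a z = (-1 : ℝ) := by
    intro a ha
    rw [hB, Finset.mem_insert, Finset.mem_singleton] at ha
    rcases ha with rfl | rfl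
    · left; rw [inner_smul_left, F.zz]; norm_num
    · right; rw [inner_neg_left, inner_smul_left, F.zz]; norm_num
  have zC : ∀ a ∈ C, inner ℝ a z = (1 / 2 : ℝ) := by
    intro a ha
    obtain ⟨S, hS, rfl⟩ := Finset.mem_image.1 ha
    rw [inner_add_left, F.su_z, F.zz, zero_add]
  have zD : ∀ a ∈ D, inner ℝ a z = (-(1 / 2) : ℝ) := by
    intro a ha
    obtain ⟨S, hS, rfl⟩ := Finset.mem_image.1 ha
    rw [inner_add_left, F.su_z, inner_neg_left, F.zz, zero_add]
  have dAB : Disjoint A B := by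
    rw [Finset.disjoint_left]
    intro a ha hb
    have h2 := zA a ha
    rcases zB a hb with h3 | h3 <;> rw [h2] at h3 <;> norm_num at h3
  have dC : Disjoint (A ∪ B) C := by
    rw [Finset.disjoint_left]
    intro a ha hc
    have h2 := zC a hc
    rcases Finset.mem_union.1 ha with ha | ha
    · rw [zA a ha] at h2; norm_num at h2
    · rcases zB a ha with h3 | h3 <;> rw [h3] at h2 <;> norm_num at h2
  have dD : Disjoint ((A ∪ B) ∪ C) D := by
    rw [Finset.disjoint_left]
    intro a ha hd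
    have h2 := zD a hd
    rcases Finset.mem_union.1 ha with ha | ha
    · rcases Finset.mem_union.1 ha with ha | ha
      · rw [zA a ha] at h2; norm_num at h2
      · rcases zB a ha with h3 | h3 <;> rw [h3] at h2 <;> norm_num at h2
    · rw [zC a ha] at h2; norm_num at h2
  have hB2 : (2 : ℝ) • z ≠ -((2 : ℝ) • z) := by
    intro h
    have h3 : (inner ℝ ((2 : ℝ) • z) z : ℝ) = inner ℝ (-((2 : ℝ) • z)) z := by rw [← h]
    rw [inner_neg_left, inner_smul_left, F.zz] at h3
    norm_num at h3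
  conv_lhs => rw [h1]
  rw [Finset.sum_union dD, Finset.sum_union dC, Finset.sum_union dAB, hA, hB, hC, hD, Finset.sum_image (inj_sub F.hu),
    Finset.sum_pair hB2, Finset.sum_image (inj_su F.hu 3 z F.zu),
    Finset.sum_image (inj_su F.hu 3 (-z) (fun i => by rw [inner_neg_left, F.zu, neg_zero]))]
  simp only [← sub_eq_add_neg]

theorem TyE6.card (F : TyE6 Φ u z) : (Φ.card : ℝ) = 72 := by
  have h1 := F.sum fun _ => 1
  rw [Finset.sum_const, Finset.sum_const, Finset.sum_const, Finset.card_powersetCard, Finset.card_univ, Fintype.card_fin] at h1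
  have h2 : (Finset.univ : Finset (Fin 6)).offDiag.card = 30 := by decide +kernel
  have h3 : Nat.choose 6 3 = 20 := by decide
  rw [h2, h3] at h1
  simp only [nsmul_eq_mul, mul_one] at h1
  rw [h1]
  norm_num

theorem TyE6.finrank (F : TyE6 Φ u z) : finrank ℝ (Submodule.span ℝ (Φ : Set E)) = 6 := by
  classical
  set A : Finset E := (Finset.univ : Finset (Fin 6)).offDiag.image fun p => u p.1 - u p.2 with hA
  have FA := frA_sub F.hu
  have h1 := FA.finrank (by norm_num)
  have hz0 : z ≠ 0 := by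
    rintro rfl
    have := F.zz
    rw [inner_zero_left] at this
    norm_num at this
  have hu : ∀ k, u k ∈ Submodule.span ℝ (A : Set E) := by
    intro k
    have h3 : u k = (1 / 6 : ℝ) • ∑ j, (u k - u j) := by
      rw [Finset.sum_sub_distrib, sum_u F.hu (by norm_num), sub_zero, Finset.sum_const, Finset.card_univ, Fintype.card_fin,
        ← Nat.cast_smul_eq_nsmul ℝ, smul_smul]
      norm_num
    rw [h3]
    refine Submodule.smul_mem _ _ (Submodule.sum_mem _ fun j _ => ?_)
    by_cases hkj : k = j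
    · rw [hkj, sub_self]
      exact Submodule.zero_mem _
    · exact Submodule.subset_span (FA.mem' hkj)
  have h2 : Submodule.span ℝ (Φ : Set E) = Submodule.span ℝ (A : Set E) ⊔ Submodule.span ℝ {z} := by
    apply le_antisymm
    · refine F.span_le.trans ?_
      unfold Sp6
      rw [Submodule.span_le]
      intro a ha
      rcases Set.mem_insert_iff.1 ha with rfl | ⟨k, rfl⟩
      · exact Submodule.mem_sup_right (Submodule.mem_span_singleton_self _)
      · exact Submodule.mem_sup_left (hu k)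
    · refine sup_le (Submodule.span_mono ?_) ?_
      · intro a ha
        obtain ⟨p, hp, rfl⟩ := Finset.mem_image.1 (Finset.mem_coe.1 ha)
        exact F.sub_mem (Finset.mem_offDiag.1 hp).2.2
      · rw [Submodule.span_singleton_le_iff_mem]
        have h3 : z = (1 / 2 : ℝ) • ((2 : ℝ) • z) := by rw [smul_smul]; norm_num
        rw [h3]
        exact Submodule.smul_mem _ _ (Submodule.subset_span F.z_mem)
  have h3 : Submodule.span ℝ (A : Set E) ⊓ Submodule.span ℝ {z} = ⊥ := by
    rw [eq_bot_iff]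
    rintro x ⟨hx1, hx2⟩
    obtain ⟨c, rfl⟩ := Submodule.mem_span_singleton.1 hx2
    have h4 : ∀ x ∈ Submodule.span ℝ (A : Set E), inner ℝ x z = (0 : ℝ) := by
      intro x hx
      induction hx using Submodule.span_induction with
      | mem a ha =>
        obtain ⟨p, hp, rfl⟩ := Finset.mem_image.1 (Finset.mem_coe.1 ha)
        rw [inner_sub_left, F.uz, F.uz, sub_zero]
      | zero => exact inner_zero_left _
      | add x y _ _ h5 h6 => rw [inner_add_left, h5, h6, add_zero]
      | smul r x _ h5 => rw [inner_smul_left, h5, mul_zero]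
    have h5 := h4 _ hx1
    rw [inner_smul_left, F.zz] at h5
    simp only [conj_trivial] at h5
    have h6 : c = 0 := by linarith
    rw [h6, zero_smul]
    exact Submodule.zero_mem _
  have : FiniteDimensional ℝ (Submodule.span ℝ (A : Set E)) := FiniteDimensional.span_finset ℝ A
  have h4 := Submodule.finrank_sup_add_finrank_inf_eq (Submodule.span ℝ (A : Set E)) (Submodule.span ℝ {z})
  rw [h3, finrank_bot, add_zero, h1, finrank_span_singleton hz0] at h4
  rw [h2, h4]

theorem TyE6.cas_root (F : TyE6 Φ u z) (h : RS Φ) (hl : l ∈ Φ) : cas Φ l = 24 := by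
  rw [cas, F.two l hl, sum_abs_eq h F.two hl F.z_mem, F.sum]
  have h1 : ∀ p : Fin 6 × Fin 6, |(inner ℝ ((2 : ℝ) • z) (u p.1 - u p.2) : ℝ)| = 0 := by
    intro p
    rw [inner_smul_left, inner_sub_right, F.zu, F.zu]
    simp
  have h2 : ∀ S : Finset (Fin 6), |(inner ℝ ((2 : ℝ) • z) (∑ i ∈ S, u i + z) : ℝ)| = 1 := by
    intro S
    rw [inner_smul_left, inner_add_right, real_inner_comm, F.su_z, F.zz]
    norm_num
  have h3 : ∀ S : Finset (Fin 6), |(inner ℝ ((2 : ℝ) • z) (∑ i ∈ S, u i - z) : ℝ)| = 1 := by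
    intro S
    rw [inner_smul_left, inner_sub_right, real_inner_comm, F.su_z, F.zz]
    norm_num
  have h4 : |(inner ℝ ((2 : ℝ) • z) ((2 : ℝ) • z) : ℝ)| = 2 := by
    rw [F.two _ F.z_mem]
    norm_num
  have h5 : |(inner ℝ ((2 : ℝ) • z) (-((2 : ℝ) • z)) : ℝ)| = 2 := by
    rw [inner_neg_right, F.two _ F.z_mem]
    norm_num
  simp only [h1, h2, h3, h4, h5, Finset.sum_const, Finset.sum_const_zero, Finset.card_powersetCard, Finset.card_univ,
    Fintype.card_fin, nsmul_eq_mul]
  have h6 : Nat.choose 6 3 = 20 := by decide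
  rw [h6]
  norm_num

/-! ### the weights -/

/-- twice the coordinates of the elements of the root lattice are integers -/
theorem TyE6.closure (F : TyE6 Φ u z) {x : E} (hx : x ∈ AddSubgroup.closure (Φ : Set E)) (i : Fin 6) :
    ∃ k : ℤ, 2 * (inner ℝ x (u i) : ℝ) = k := by
  induction hx using AddSubgroup.closure_induction with
  | mem a ha =>
    rcases (F.mem a).1 ha with ⟨p, q, hpq, rfl⟩ | rfl | rfl | ⟨S, hS, rfl | rfl⟩
    · refine ⟨2 * ((if p = i then 1 else 0) - (if q = i then 1 else 0)), ?_⟩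
      rw [inner_sub_left, F.hu, F.hu]
      push_cast
      ring
    · exact ⟨0, by rw [inner_smul_left, F.zu]; simp⟩
    · exact ⟨0, by rw [inner_neg_left, inner_smul_left, F.zu]; simp⟩
    · refine ⟨2 * (if i ∈ S then 1 else 0) - 1, ?_⟩
      rw [inner_add_left, F.zu, inner_su F.hu, hS]
      push_cast
      ring
    · refine ⟨2 * (if i ∈ S then 1 else 0) - 1, ?_⟩
      rw [inner_sub_left, F.zu, inner_su F.hu, hS]
      push_cast
      ring
  | zero => exact ⟨0, by rw [inner_zero_left]; simp⟩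
  | add x y _ _ h1 h2 =>
    obtain ⟨a, ha⟩ := h1
    obtain ⟨b, hb⟩ := h2
    refine ⟨a + b, ?_⟩
    rw [inner_add_left, mul_add, ha, hb]
    push_cast
    ring
  | neg x _ h1 =>
    obtain ⟨a, ha⟩ := h1
    refine ⟨-a, ?_⟩
    rw [inner_neg_left, mul_neg, ha]
    push_cast
    ring

/-- the coordinates of the weights -/
theorem TyE6.int_half (F : TyE6 Φ u z) (hX : Sat Φ X) {x : E} (hx : x ∈ X) :
    ∃ (e : Fin 6 → ℤ) (f : ℤ), (∀ i, (inner ℝ x (u i) : ℝ) = e i / 2) ∧ (inner ℝ x z : ℝ) = f / 2 ∧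
      (∑ i, e i = 0) ∧ ∀ i, ∃ k : ℤ, e i - f = 2 * k := by
  have h1 : ∀ i : Fin 6, ∃ d : ℤ, (inner ℝ x (u i) : ℝ) = inner ℝ x (u 0) + d := by
    intro i
    by_cases h : i = 0
    · exact ⟨0, by rw [h]; simp⟩
    · obtain ⟨k, hk⟩ := hX.int _ (F.sub_mem h) x hx
      rw [co_two F.two (F.sub_mem h), inner_sub_right] at hk
      exact ⟨k, by linarith⟩
  choose d hd using h1
  have h0 := sum_ax F.hu (by norm_num) x
  have h6 : 6 * (inner ℝ x (u 0) : ℝ) = -∑ i, (d i : ℝ) := by
    rw [Finset.sum_congr rfl fun i _ => hd i, Finset.sum_add_distrib, Finset.sum_const, Finset.card_univ,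
      Fintype.card_fin, nsmul_eq_mul] at h0
    push_cast at h0
    linarith
  obtain ⟨k, hk⟩ := F.closure (hX.coset x hx (-x) (hX.neg x hx)) 0
  rw [sub_neg_eq_add, inner_add_left] at hk
  have h2 : 2 * (inner ℝ x (u 0) : ℝ) = ((-∑ i, d i - k : ℤ) : ℝ) := by
    push_cast
    linarith
  obtain ⟨c, hc⟩ : ∃ c : ℤ, c = -∑ i, d i - k := ⟨_, rfl⟩
  rw [← hc] at h2
  have hz : ∃ f : ℤ, 2 * (inner ℝ x z : ℝ) = f := by
    obtain ⟨k, hk⟩ := hX.int _ F.z_mem x hx
    rw [co_two F.two F.z_mem, inner_smul_right] at hk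
    exact ⟨k, hk⟩
  obtain ⟨f, hf⟩ := hz
  have he : ∀ i, (inner ℝ x (u i) : ℝ) = ((c + 2 * d i : ℤ) : ℝ) / 2 := by
    intro i
    rw [hd i]
    push_cast
    linarith
  refine ⟨fun i => c + 2 * d i, f, he, by linarith, ?_, ?_⟩
  · simp only [he] at h0
    rw [← Finset.sum_div] at h0
    have h3 : (∑ i, ((c + 2 * d i : ℤ) : ℝ)) = 0 := by linarith
    exact_mod_cast h3
  · obtain ⟨q, hq⟩ := hX.int _ (F.sp_mem (S := {0, 1, 2}) (by decide)) x hx
    rw [co_two F.two (F.sp_mem (S := {0, 1, 2}) (by decide)), inner_add_right, inner_sum] at hq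
    have h4 : ∑ i ∈ ({0, 1, 2} : Finset (Fin 6)), (inner ℝ x (u i) : ℝ) =
        inner ℝ x (u 0) + inner ℝ x (u 1) + inner ℝ x (u 2) := by
      rw [Finset.sum_insert (by decide), Finset.sum_insert (by decide), Finset.sum_singleton]
      ring
    rw [h4, he 0, he 1, he 2] at hq
    have h5 : ((c + 2 * d 0 : ℤ) : ℝ) + (c + 2 * d 1 : ℤ) + (c + 2 * d 2 : ℤ) + f = 2 * q := by linarith
    have h7 : (c + 2 * d 0) + (c + 2 * d 1) + (c + 2 * d 2) + f = 2 * q := by exact_mod_cast h5
    intro i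
    refine ⟨2 * c + d 0 + d 1 + d 2 + d i - q, ?_⟩
    linarith

/-- signs with the sum zero -/
theorem TyE6.of_signs (F : TyE6 Φ u z) {x : E} (hx : x ∈ Sp6 u z)
    (h : ∀ i, (inner ℝ x (u i) : ℝ) = 1 / 2 ∨ (inner ℝ x (u i) : ℝ) = -(1 / 2))
    (hz : (inner ℝ x z : ℝ) = 1 / 2 ∨ (inner ℝ x z : ℝ) = -(1 / 2)) : x ∈ Φ := by
  classical
  set T : Finset (Fin 6) := Finset.univ.filter fun i => (inner ℝ x (u i) : ℝ) = 1 / 2 with hT
  have h0 := sum_ax F.hu (by norm_num) x
  have h1 : ∀ i, (inner ℝ x (u i) : ℝ) = (if i ∈ T then 1 else 0) - 1 / 2 := by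
    intro i
    by_cases hi : i ∈ T
    · rw [if_pos hi, (Finset.mem_filter.1 hi).2]; norm_num
    · rw [if_neg hi]
      rcases h i with h2 | h2
      · exact absurd (by rw [hT, Finset.mem_filter]; exact ⟨Finset.mem_univ _, h2⟩) hi
      · rw [h2]; norm_num
  have h4 : T.card = 3 := by
    simp only [h1, Finset.sum_sub_distrib, Finset.sum_ite_mem, Finset.univ_inter, Finset.sum_const, Finset.card_univ,
      Fintype.card_fin, nsmul_eq_mul, mul_one] at h0
    have : (T.card : ℝ) = 3 := by push_cast at h0; linarith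
    exact_mod_cast this
  rcases hz with hz | hz
  · have h5 : x = ∑ i ∈ T, u i + z := by
      refine F.eq_of hx (F.span_le (Submodule.subset_span (F.sp_mem h4))) (fun i => ?_) ?_
      · rw [h1, inner_add_left, F.zu, inner_su F.hu, h4]
        norm_num
      · rw [hz, inner_add_left, F.su_z, F.zz, zero_add]
    rw [h5]
    exact F.sp_mem h4
  · have h5 : x = ∑ i ∈ T, u i - z := by
      refine F.eq_of hx (F.span_le (Submodule.subset_span (F.sm_mem h4))) (fun i => ?_) ?_
      · rw [h1, inner_sub_left, F.zu, inner_su F.hu, h4]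
        norm_num
      · rw [hz, inner_sub_left, F.su_z, F.zz, zero_sub]
    rw [h5]
    exact F.sm_mem h4

/-- every nonzero weight has pairing at least two with some root -/
theorem TyE6.exists_two (F : TyE6 Φ u z) (hX : Sat Φ X) {x : E} (hx : x ∈ X) (hx0 : x ≠ 0) :
    ∃ c ∈ Φ, (2 : ℝ) ≤ inner ℝ x c := by
  by_contra hcon
  push Not at hcon
  have hle : ∀ c ∈ Φ, (inner ℝ x c : ℝ) ≤ 1 := by
    intro c hc
    obtain ⟨k, hk⟩ := hX.int c hc x hx
    rw [co_two F.two hc] at hk
    have h1 := hcon c hc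
    rw [hk] at h1 ⊢
    have h2 : k < 2 := by exact_mod_cast h1
    have h3 : k ≤ 1 := by omega
    exact_mod_cast h3
  obtain ⟨e, f, he, hf, h0', hpar⟩ := F.int_half hX hx
  have hspan := F.span_le (TR.sat_span hX hx)
  have hd : ∀ i j, e i - e j ≤ 2 := by
    intro i j
    by_cases hij : i = j
    · rw [hij]; omega
    · have h1 := hle _ (F.sub_mem hij)
      rw [inner_sub_right, he, he] at h1
      have h2 : (e i : ℝ) - e j ≤ 2 := by linarith
      exact_mod_cast h2
  have hf1 : f ≤ 1 ∧ -1 ≤ f := by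
    have h1 := hle _ F.z_mem
    have h2 := hle _ F.nz_mem
    rw [inner_smul_right, hf] at h1
    rw [inner_neg_right, inner_smul_right, hf] at h2
    constructor
    · have h3 : (f : ℝ) ≤ 1 := by linarith
      exact_mod_cast h3
    · have h3 : (-1 : ℝ) ≤ f := by linarith
      exact_mod_cast h3
  have hb : ∀ i, e i ≤ 1 ∧ -1 ≤ e i := by
    intro i
    have h3 : ∑ j : Fin 6, (2 : ℤ) - 2 = ∑ j ∈ Finset.univ.erase i, (2 : ℤ) := by
      rw [Finset.sum_const, Finset.sum_const, Finset.card_erase_of_mem (Finset.mem_univ _), Finset.card_univ,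
        Fintype.card_fin]
      decide
    have h1 : ∑ j, (e i - e j) ≤ ∑ j : Fin 6, (2 : ℤ) - 2 := by
      rw [h3, ← Finset.add_sum_erase _ _ (Finset.mem_univ i), sub_self, zero_add]
      exact Finset.sum_le_sum fun j _ => hd i j
    have h2 : ∑ j, (e j - e i) ≤ ∑ j : Fin 6, (2 : ℤ) - 2 := by
      rw [h3, ← Finset.add_sum_erase _ _ (Finset.mem_univ i), sub_self, zero_add]
      exact Finset.sum_le_sum fun j _ => hd j i
    rw [Finset.sum_sub_distrib, h0', Finset.sum_const, Finset.sum_const, Finset.card_univ, Fintype.card_fin] at h1 h2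
    simp only [nsmul_eq_mul] at h1 h2
    push_cast at h1 h2
    omega
  by_cases hf0 : f = 0
  · apply hx0
    refine F.eq_of hspan (Submodule.zero_mem _) (fun i => ?_) ?_
    · obtain ⟨k, hk⟩ := hpar i
      have h1 := hb i
      have h2 : e i = 0 := by omega
      rw [he, h2, inner_zero_left]
      norm_num
    · rw [hf, hf0, inner_zero_left]
      norm_num
  · have hmem : x ∈ Φ := by
      refine F.of_signs hspan (fun i => ?_) ?_
      · obtain ⟨k, hk⟩ := hpar i
        have h1 := hb i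
        rw [he]
        rcases (by omega : e i = 1 ∨ e i = -1) with h1 | h1
        · left; rw [h1]; norm_num
        · right; rw [h1]; norm_num
      · rw [hf]
        rcases (by omega : f = 1 ∨ f = -1) with h1 | h1
        · left; rw [h1]; norm_num
        · right; rw [h1]; norm_num
    have h1 := hcon x hmem
    rw [F.two x hmem] at h1
    exact lt_irrefl _ h1

end e6

end LT
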