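import Pool.Agent.Helper94.LT.Gen
import Pool.Agent.Helper95.TR.TR4

/-!
Project LT (MP_b8862a_ag), block E7.
-/

set_option linter.unusedSectionVars false
set_option linter.unusedVariables false

open Module PF TF PW AG

namespace LT

variable {E : Type*} [NormedAddCommGroup E] [InnerProductSpace ℝ E] {Φ X : Finset E} {n s m : ℕ} {l y v : E}

/-- expansion in the frame -/
theorem expand_u {u : Fin m → E} (hu : ∀ i j, inner ℝ (u i) (u j) = (if i = j then (1 : ℝ) else 0) - 1 / m) (hm : 0 < m)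
    {x : E} (hx : x ∈ Submodule.span ℝ (Set.range u)) : x = ∑ i, (inner ℝ x (u i) : ℝ) • u i := by
  induction hx using Submodule.span_induction with
  | mem x hx =>
    obtain ⟨k, rfl⟩ := hx
    simp only [hu, sub_smul, Finset.sum_sub_distrib, ite_smul, one_smul, zero_smul, Finset.sum_ite_eq, Finset.mem_univ,
      if_true]
    rw [← Finset.smul_sum, sum_u hu hm, smul_zero, sub_zero]
  | zero => simp
  | add x y _ _ hx hy =>
    conv_lhs => rw [hx, hy]
    rw [← Finset.sum_add_distrib]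
    refine Finset.sum_congr rfl fun i _ => ?_
    rw [inner_add_left, add_smul]
  | smul r x _ hx =>
    conv_lhs => rw [hx]
    rw [Finset.smul_sum]
    refine Finset.sum_congr rfl fun i _ => ?_
    rw [inner_smul_left, smul_smul, conj_trivial]

theorem inner_u {u : Fin m → E} (hu : ∀ i j, inner ℝ (u i) (u j) = (if i = j then (1 : ℝ) else 0) - 1 / m) (hm : 0 < m)
    {x : E} (hx : x ∈ Submodule.span ℝ (Set.range u)) (z : E) :
    (inner ℝ x z : ℝ) = ∑ i, inner ℝ x (u i) * inner ℝ z (u i) := by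
  conv_lhs => rw [expand_u hu hm hx]
  rw [sum_inner]
  refine Finset.sum_congr rfl fun i _ => ?_
  rw [inner_smul_left, conj_trivial, real_inner_comm z (u i)]

/-- the sum of the squares of the pairings -/
theorem frame_sq (h : RS Φ) (h2 : ∀ a ∈ Φ, inner ℝ a a = (2 : ℝ)) : ∃ C : ℝ, ∀ x ∈ Submodule.span ℝ (Φ : Set E),
    ∑ a ∈ Φ, (inner ℝ a x : ℝ) * inner ℝ a x = C * inner ℝ x x := by
  classical
  have h0 : (0 : E) ∉ Φ := fun h3 => h.ne_zero 0 h3 rfl
  have hX : Sat Φ (insert 0 Φ) := by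
    have hcl : ∀ x ∈ insert (0 : E) Φ, x ∈ AddSubgroup.closure (Φ : Set E) := by
      intro x hx
      rcases Finset.mem_insert.1 hx with rfl | hx
      · exact AddSubgroup.zero_mem _
      · exact AddSubgroup.subset_closure hx
    refine ⟨⟨0, Finset.mem_insert_self _ _⟩, ?_, ?_, ?_, ?_⟩
    · intro a ha x hx
      rcases Finset.mem_insert.1 hx with rfl | hx
      · exact ⟨0, by rw [co_two h2 ha, inner_zero_left]; simp⟩
      · exact h.int a ha x hx
    · intro a ha x hx j hj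
      rcases Nat.eq_zero_or_pos j with rfl | hj0
      · rw [Nat.cast_zero, zero_smul, sub_zero]
        exact hx
      have hj1 : (1 : ℝ) ≤ j := by exact_mod_cast hj0
      rcases Finset.mem_insert.1 hx with rfl | hx
      · rw [co_two h2 ha, inner_zero_left] at hj
        linarith
      · rw [co_two h2 ha] at hj
        have hne : x ≠ -a := by
          rintro rfl
          rw [inner_neg_left, h2 a ha] at hj
          linarith
        by_cases hxa : x = a
        · subst hxa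
          rw [h2 x hx] at hj
          have hj2 : j ≤ 2 := by exact_mod_cast hj
          rcases (by omega : j = 1 ∨ j = 2) with rfl | rfl
          · rw [Nat.cast_one, one_smul, sub_self]
            exact Finset.mem_insert_self _ _
          · refine Finset.mem_insert_of_mem ?_
            have := h.neg_mem hx
            have h4 : x - ((2 : ℕ) : ℝ) • x = -x := by push_cast; module
            rw [h4]
            exact this
        · obtain ⟨k, hk⟩ := h.int a ha x hx
          rw [co_two h2 ha] at hk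
          -- pairing less than two
          have hN := nrs_of_two h h2
          rcases hN.inner_Psi (mem_Psi.2 ⟨hx, h2 x hx⟩) (mem_Psi.2 ⟨ha, h2 a ha⟩) hxa hne with h5 | h5 | h5
          · rw [h5] at hj; linarith
          · rw [h5] at hj
            have hj2 : j ≤ 1 := by exact_mod_cast hj
            obtain rfl : j = 1 := by omega
            refine Finset.mem_insert_of_mem ?_
            have := h.refl a ha x hx
            rw [co_two h2 ha, h5, one_smul] at this
            rw [Nat.cast_one, one_smul]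
            exact this
          · rw [h5] at hj; linarith
    · intro x hx
      rcases Finset.mem_insert.1 hx with rfl | hx
      · rw [neg_zero]; exact Finset.mem_insert_self _ _
      · exact Finset.mem_insert_of_mem (h.neg_mem hx)
    · intro x hx y hy
      exact AddSubgroup.sub_mem _ (hcl x hx) (hcl y hy)
  obtain ⟨C, hC⟩ := TR.frame (Φ := Φ) (X := insert 0 Φ) (fun _ => 1) h hX (fun _ _ _ _ => rfl)
  refine ⟨C, fun x hx => ?_⟩
  have h3 := hC x hx x
  rw [TR.B1, Finset.sum_insert h0] at h3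
  simp only [inner_zero_left, mul_zero, zero_add, one_mul] at h3
  exact h3

/-- the parity of an orthogonal module in terms of the form -/
theorem par_sq (h : RS Φ) (h2 : ∀ a ∈ Φ, inner ℝ a a = (2 : ℝ)) (hp : Par Φ l v) (hl : ∀ a ∈ Φ, ∃ k : ℤ, co a l = k)
    (hreg : ∀ a ∈ Φ, (inner ℝ v a : ℝ) ≠ 0) : ∃ k : ℤ, ∑ a ∈ Φ, (inner ℝ a l : ℝ) * inner ℝ a l = 4 * k := by
  classical
  obtain ⟨k, hk⟩ := hp
  have hsub : Ps Φ v ⊆ Φ := Finset.filter_subset _ _
  have hex : ∀ a, ∃ r : ℤ, a ∈ Φ → ∃ q : ℤ, (inner ℝ a l : ℝ) = q ∧ q * q = q + 2 * r := by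
    intro a
    by_cases ha : a ∈ Φ
    · obtain ⟨q, hq⟩ := hl a ha
      rw [co_two h2 ha, real_inner_comm] at hq
      obtain ⟨r, hr⟩ := Int.even_mul_pred_self q
      exact ⟨r, fun _ => ⟨q, hq, by linarith [hr, mul_sub q q 1]⟩⟩
    · exact ⟨0, fun h => absurd h ha⟩
  choose r hr using hex
  have h3 : ∑ a ∈ Ps Φ v, (inner ℝ a l : ℝ) * inner ℝ a l = 2 * ((k + ∑ a ∈ Ps Φ v, r a : ℤ) : ℝ) := by
    push_cast
    rw [mul_add, ← hk, Finset.mul_sum, ← Finset.sum_add_distrib]
    refine Finset.sum_congr rfl fun a ha => ?_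
    obtain ⟨q, hq, hq2⟩ := hr a (hsub ha)
    have e1 : co a l = q := by rw [co_two h2 (hsub ha), real_inner_comm, hq]
    rw [e1, hq]
    exact_mod_cast hq2
  have h4 : ∑ a ∈ Φ, (inner ℝ a l : ℝ) * inner ℝ a l = 2 * ∑ a ∈ Ps Φ v, (inner ℝ a l : ℝ) * inner ℝ a l := by
    rw [← Finset.sum_sdiff hsub, two_mul]
    congr 1
    refine Finset.sum_bij' (fun a _ => -a) (fun a _ => -a) ?_ ?_ ?_ ?_ ?_
    · intro a ha
      rw [Finset.mem_sdiff, Ps, Finset.mem_filter] at ha
      rw [Ps, Finset.mem_filter, inner_neg_right]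
      have h5 := hreg a ha.1
      have h6 : ¬ 0 < (inner ℝ v a : ℝ) := fun h => ha.2 ⟨ha.1, h⟩
      refine ⟨h.neg_mem ha.1, ?_⟩
      rcases lt_or_gt_of_ne h5 with h7 | h7
      · linarith
      · exact absurd h7 h6
    · intro a ha
      rw [Ps, Finset.mem_filter] at ha
      rw [Finset.mem_sdiff, Ps, Finset.mem_filter, inner_neg_right]
      refine ⟨h.neg_mem ha.1, fun h5 => ?_⟩
      linarith [h5.2, ha.2]
    · intro a _; exact neg_neg a
    · intro a _; exact neg_neg a
    · intro a _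
      rw [inner_neg_left]
      ring
  refine ⟨k + ∑ a ∈ Ps Φ v, r a, ?_⟩
  rw [h4, h3]
  ring

section e7

variable {u : Fin 8 → E}

theorem TyE7.hu (F : TyE7 Φ u) : ∀ i j, inner ℝ (u i) (u j) = (if i = j then (1 : ℝ) else 0) - 1 / ((8 : ℕ) : ℝ) := by
  intro i j
  rw [F.gram]
  norm_num

theorem TyE7.sub_mem (F : TyE7 Φ u) {i j : Fin 8} (hij : i ≠ j) : u i - u j ∈ Φ := (F.mem _).2 (Or.inl ⟨i, j, hij, rfl⟩)

theorem TyE7.su_mem (F : TyE7 Φ u) {S : Finset (Fin 8)} (hS : S.card = 4) : ∑ i ∈ S, u i ∈ Φ :=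
  (F.mem _).2 (Or.inr ⟨S, hS, rfl⟩)

theorem TyE7.two (F : TyE7 Φ u) : ∀ a ∈ Φ, inner ℝ a a = (2 : ℝ) := by
  intro a ha
  rcases (F.mem a).1 ha with ⟨i, j, hij, rfl⟩ | ⟨S, hS, rfl⟩
  · exact norm_sub F.hu hij
  · rw [inner_su_su F.hu, Finset.inter_self, hS]
    norm_num

theorem TyE7.span_le (F : TyE7 Φ u) : Submodule.span ℝ (Φ : Set E) ≤ Submodule.span ℝ (Set.range u) := by
  rw [Submodule.span_le]
  intro a ha
  rcases (F.mem a).1 ha with ⟨i, j, hij, rfl⟩ | ⟨S, hS, rfl⟩
  · exact Submodule.sub_mem _ (Submodule.subset_span ⟨i, rfl⟩) (Submodule.subset_span ⟨j, rfl⟩)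
  · exact Submodule.sum_mem _ fun i _ => Submodule.subset_span ⟨i, rfl⟩

/-- the sum over all the roots -/
theorem TyE7.sum (F : TyE7 Φ u) (f : E → ℝ) : ∑ a ∈ Φ, f a =
    ∑ p ∈ (Finset.univ : Finset (Fin 8)).offDiag, f (u p.1 - u p.2) +
      ∑ S ∈ (Finset.univ : Finset (Fin 8)).powersetCard 4, f (∑ i ∈ S, u i) := by
  classical
  have h1 : Φ = ((Finset.univ : Finset (Fin 8)).offDiag.image fun p => u p.1 - u p.2) ∪
      ((Finset.univ : Finset (Fin 8)).powersetCard 4).image fun S => ∑ i ∈ S, u i := by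
    ext a
    rw [F.mem, Finset.mem_union, Finset.mem_image, Finset.mem_image]
    simp only [Finset.mem_offDiag, Finset.mem_univ, true_and, Finset.mem_powersetCard, Finset.subset_univ]
    constructor
    · rintro (⟨i, j, hij, rfl⟩ | ⟨S, hS, rfl⟩)
      · exact Or.inl ⟨(i, j), hij, rfl⟩
      · exact Or.inr ⟨S, hS, rfl⟩
    · rintro (⟨p, hp, rfl⟩ | ⟨S, hS, rfl⟩)
      · exact Or.inl ⟨p.1, p.2, hp, rfl⟩
      · exact Or.inr ⟨S, hS, rfl⟩
  have hd : Disjoint ((Finset.univ : Finset (Fin 8)).offDiag.image fun p => u p.1 - u p.2)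
      (((Finset.univ : Finset (Fin 8)).powersetCard 4).image fun S => ∑ i ∈ S, u i) := by
    rw [Finset.disjoint_left]
    intro a ha hb
    obtain ⟨p, hp, rfl⟩ := Finset.mem_image.1 ha
    obtain ⟨S, hS, hSp⟩ := Finset.mem_image.1 hb
    have hS4 : S.card = 4 := (Finset.mem_powersetCard.1 hS).2
    have h3 : (inner ℝ (∑ i ∈ S, u i) (u 0) : ℝ) = inner ℝ (u p.1 - u p.2) (u 0) := by
      rw [← hSp]
    rw [inner_su F.hu, hS4, inner_sub_left, F.hu, F.hu] at h3
    split_ifs at h3 <;> norm_num at h3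
  have hi2 : Set.InjOn (fun S : Finset (Fin 8) => ∑ i ∈ S, u i)
      (((Finset.univ : Finset (Fin 8)).powersetCard 4 : Finset (Finset (Fin 8))) : Set (Finset (Fin 8))) := by
    have h3 := inj_su F.hu 4 0 (fun i => inner_zero_left _)
    simpa only [add_zero] using h3
  conv_lhs => rw [h1]
  rw [Finset.sum_union hd, Finset.sum_image (inj_sub F.hu), Finset.sum_image hi2]

theorem TyE7.card (F : TyE7 Φ u) : (Φ.card : ℝ) = 126 := by
  have h1 := F.sum fun _ => 1
  rw [Finset.sum_const, Finset.sum_const, Finset.sum_const, Finset.card_powersetCard, Finset.card_univ, Fintype.card_fin] at h1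
  have h2 : (Finset.univ : Finset (Fin 8)).offDiag.card = 56 := by decide +kernel
  have h3 : Nat.choose 8 4 = 70 := by decide
  rw [h2, h3] at h1
  simp only [nsmul_eq_mul, mul_one] at h1
  rw [h1]
  norm_num

theorem TyE7.finrank (F : TyE7 Φ u) : finrank ℝ (Submodule.span ℝ (Φ : Set E)) = 7 := by
  classical
  have h1 := (frA_sub F.hu).finrank (by norm_num)
  have h2 : Submodule.span ℝ (Φ : Set E) =
      Submodule.span ℝ (((Finset.univ : Finset (Fin 8)).offDiag.image fun p => u p.1 - u p.2 : Finset E) : Set E) := by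
    apply le_antisymm
    · refine F.span_le.trans ?_
      rw [Submodule.span_le]
      rintro _ ⟨k, rfl⟩
      -- `u k` is a combination of the differences
      have h3 : u k = (1 / 8 : ℝ) • ∑ j, (u k - u j) := by
        rw [Finset.sum_sub_distrib, sum_u F.hu (by norm_num), sub_zero, Finset.sum_const, Finset.card_univ, Fintype.card_fin,
          ← Nat.cast_smul_eq_nsmul ℝ, smul_smul]
        norm_num
      rw [SetLike.mem_coe, h3]
      refine Submodule.smul_mem _ _ (Submodule.sum_mem _ fun j _ => ?_)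
      by_cases hkj : k = j
      · rw [hkj, sub_self]
        exact Submodule.zero_mem _
      · exact Submodule.subset_span ((frA_sub F.hu).mem' hkj)
    · refine Submodule.span_mono ?_
      intro a ha
      obtain ⟨p, hp, rfl⟩ := Finset.mem_image.1 (Finset.mem_coe.1 ha)
      exact F.sub_mem (Finset.mem_offDiag.1 hp).2.2
  rw [h2, h1]

/-- the pairings of the root `u 0 - u 1` -/
theorem TyE7.inner0 (F : TyE7 Φ u) (S : Finset (Fin 8)) :
    (inner ℝ (u 0 - u 1) (∑ i ∈ S, u i) : ℝ) =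
      (((if (0 : Fin 8) ∈ S then (1 : ℤ) else 0) - (if (1 : Fin 8) ∈ S then 1 else 0) : ℤ) : ℝ) := by
  rw [real_inner_comm, inner_sub_right, inner_su F.hu, inner_su F.hu]
  push_cast
  ring

theorem TyE7.inner0' (F : TyE7 Φ u) (p : Fin 8 × Fin 8) :
    (inner ℝ (u 0 - u 1) (u p.1 - u p.2) : ℝ) =
      ((((if (0 : Fin 8) = p.1 then (1 : ℤ) else 0) - (if (0 : Fin 8) = p.2 then 1 else 0)) -
        ((if (1 : Fin 8) = p.1 then (1 : ℤ) else 0) - (if (1 : Fin 8) = p.2 then 1 else 0)) : ℤ) : ℝ) := by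
  rw [inner_sub_left, inner_sub_right, inner_sub_right, F.hu, F.hu, F.hu, F.hu]
  push_cast
  ring

theorem TyE7.cas_root (F : TyE7 Φ u) (h : RS Φ) (hl : l ∈ Φ) : cas Φ l = 36 := by
  have h01 : u 0 - u 1 ∈ Φ := F.sub_mem (by decide)
  rw [cas, F.two l hl, sum_abs_eq h F.two hl h01, F.sum]
  simp only [F.inner0, F.inner0']
  have h1 : ∑ p ∈ (Finset.univ : Finset (Fin 8)).offDiag, |((((if (0 : Fin 8) = p.1 then (1 : ℤ) else 0) -
      (if (0 : Fin 8) = p.2 then 1 else 0)) - ((if (1 : Fin 8) = p.1 then (1 : ℤ) else 0) -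
        (if (1 : Fin 8) = p.2 then 1 else 0)) : ℤ) : ℝ)| = 28 := by
    have h2 : ∑ p ∈ (Finset.univ : Finset (Fin 8)).offDiag, |(((if (0 : Fin 8) = p.1 then (1 : ℤ) else 0) -
      (if (0 : Fin 8) = p.2 then 1 else 0)) - ((if (1 : Fin 8) = p.1 then (1 : ℤ) else 0) -
        (if (1 : Fin 8) = p.2 then 1 else 0)) : ℤ)| = 28 := by decide +kernel
    exact_mod_cast h2
  have h3 : ∑ S ∈ (Finset.univ : Finset (Fin 8)).powersetCard 4, |((((if (0 : Fin 8) ∈ S then (1 : ℤ) else 0) -
      (if (1 : Fin 8) ∈ S then 1 else 0) : ℤ)) : ℝ)| = 40 := by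
    have h2 : ∑ S ∈ (Finset.univ : Finset (Fin 8)).powersetCard 4, |((if (0 : Fin 8) ∈ S then (1 : ℤ) else 0) -
      (if (1 : Fin 8) ∈ S then 1 else 0) : ℤ)| = 40 := by decide +kernel
    exact_mod_cast h2
  rw [h1, h3]
  norm_num

/-- the constant of the frame identity -/
theorem TyE7.frame (F : TyE7 Φ u) (h : RS Φ) {x : E} (hx : x ∈ Submodule.span ℝ (Φ : Set E)) :
    ∑ a ∈ Φ, (inner ℝ a x : ℝ) * inner ℝ a x = 36 * inner ℝ x x := by
  obtain ⟨C, hC⟩ := frame_sq h F.two
  have h01 : u 0 - u 1 ∈ Φ := F.sub_mem (by decide)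
  have h4 := hC _ (Submodule.subset_span h01)
  rw [F.two _ h01, F.sum] at h4
  simp only [real_inner_comm (u 0 - u 1)] at h4
  simp only [F.inner0, F.inner0'] at h4
  have h1 : ∑ p ∈ (Finset.univ : Finset (Fin 8)).offDiag, ((((if (0 : Fin 8) = p.1 then (1 : ℤ) else 0) -
      (if (0 : Fin 8) = p.2 then 1 else 0)) - ((if (1 : Fin 8) = p.1 then (1 : ℤ) else 0) -
        (if (1 : Fin 8) = p.2 then 1 else 0)) : ℤ) : ℝ) * ((((if (0 : Fin 8) = p.1 then (1 : ℤ) else 0) -
      (if (0 : Fin 8) = p.2 then 1 else 0)) - ((if (1 : Fin 8) = p.1 then (1 : ℤ) else 0) -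
        (if (1 : Fin 8) = p.2 then 1 else 0)) : ℤ) : ℝ) = 32 := by
    have h2 : ∑ p ∈ (Finset.univ : Finset (Fin 8)).offDiag, (((if (0 : Fin 8) = p.1 then (1 : ℤ) else 0) -
      (if (0 : Fin 8) = p.2 then 1 else 0)) - ((if (1 : Fin 8) = p.1 then (1 : ℤ) else 0) -
        (if (1 : Fin 8) = p.2 then 1 else 0)) : ℤ) * (((if (0 : Fin 8) = p.1 then (1 : ℤ) else 0) -
      (if (0 : Fin 8) = p.2 then 1 else 0)) - ((if (1 : Fin 8) = p.1 then (1 : ℤ) else 0) -
        (if (1 : Fin 8) = p.2 then 1 else 0)) : ℤ) = 32 := by decide +kernel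
    exact_mod_cast h2
  have h3 : ∑ S ∈ (Finset.univ : Finset (Fin 8)).powersetCard 4, ((((if (0 : Fin 8) ∈ S then (1 : ℤ) else 0) -
      (if (1 : Fin 8) ∈ S then 1 else 0) : ℤ)) : ℝ) * ((((if (0 : Fin 8) ∈ S then (1 : ℤ) else 0) -
      (if (1 : Fin 8) ∈ S then 1 else 0) : ℤ)) : ℝ) = 40 := by
    have h2 : ∑ S ∈ (Finset.univ : Finset (Fin 8)).powersetCard 4, ((if (0 : Fin 8) ∈ S then (1 : ℤ) else 0) -
      (if (1 : Fin 8) ∈ S then 1 else 0) : ℤ) * ((if (0 : Fin 8) ∈ S then (1 : ℤ) else 0) -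
      (if (1 : Fin 8) ∈ S then 1 else 0) : ℤ) = 40 := by decide +kernel
    exact_mod_cast h2
  rw [h1, h3] at h4
  have h5 : C = 36 := by linarith
  rw [hC x hx, h5]

end e7

end LT
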